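import Pool.Agent.Run7.h303.TR.Ineq

/-!
One real linear functional on the span of the translations decides the dichotomy.
-/

set_option autoImplicit false

open MeasureTheory Filter Topology Finset
open scoped ENNReal ComplexOrder

namespace Run7.h303.TR

open Pool.Agent.W763.Tr
open Pool.Agent.TH654.FC
open Pool.Agent.Y253.TR
open Pool.Agent.N276.TT (pow_tau)

/-- a nonzero integer is a product of a power of 2, a power of 3 and an integer prime to 6 -/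
lemma six_part {n : ℤ} (hn : n ≠ 0) : ∃ (a b : ℕ) (κ : ℤ), κ ≠ 0 ∧ ¬ 2 ∣ κ.natAbs ∧
    ¬ 3 ∣ κ.natAbs ∧ n = 2 ^ a * (3 ^ b * κ) := by
  have hn0 : n.natAbs ≠ 0 := by omega
  obtain ⟨a, n1, h1, e1⟩ := Nat.exists_eq_pow_mul_and_not_dvd hn0 2 (by norm_num)
  have hn1 : n1 ≠ 0 := by rintro rfl; simp at h1
  obtain ⟨b, n2, h2, e2⟩ := Nat.exists_eq_pow_mul_and_not_dvd hn1 3 (by norm_num)
  have hn2 : n2 ≠ 0 := by rintro rfl; simp at h2
  have h12 : ¬ 2 ∣ n2 := fun h => h1 (e2 ▸ h.mul_left _)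
  have e : n.natAbs = 2 ^ a * (3 ^ b * n2) := by rw [e1, e2]
  rcases Int.natAbs_eq n with hs | hs
  · refine ⟨a, b, n2, by exact_mod_cast hn2, by simpa using h12, by simpa using h2, ?_⟩
    rw [hs, e]
    push_cast
    ring
  · refine ⟨a, b, -n2, by simpa using hn2, by simpa using h12, by simpa using h2, ?_⟩
    rw [hs, e]
    push_cast
    ring

section

variable {s2 s3 t : Equiv.Perm ℚ} (hs2 : ∀ x, s2 x = 2 * x) (hs3 : ∀ x, s3 x = 3 * x)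
  (ht : ∀ x, t x = x + 1) {G : Subgroup (Equiv.Perm ℚ)} (hG : G = Subgroup.closure {s2, s3, t})

include hs2 hs3 ht hG

/-- a translation is conjugate to a power of `u` with exponent prime to 6 -/
lemma class_of {u : G} (hu : ∀ x : ℚ, (u : Equiv.Perm ℚ) x = x + 1) {g : G} (hg1 : g ≠ 1)
    (hg : ∃ r : ℚ, ∀ x : ℚ, (g : Equiv.Perm ℚ) x = x + r) :
    ∃ κ : ℤ, κ ≠ 0 ∧ ¬ 2 ∣ κ.natAbs ∧ ¬ 3 ∣ κ.natAbs ∧ ∀ ψ ∈ TS G, ψ g = ψ (u ^ κ) := by
  obtain ⟨r, hg⟩ := hg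
  have hsix : Six r := by
    obtain ⟨a, b, r', hr', h⟩ := form hs2 hs3 ht g (by rw [← hG]; exact g.2)
    have e0 := h 0
    rw [hg, mul_zero, zero_add, zero_add] at e0
    rw [e0]; exact hr'
  obtain ⟨n, k, hr⟩ := hsix
  have hn : n ≠ 0 := by
    rintro rfl
    apply hg1
    apply Subtype.ext
    apply Equiv.ext
    intro x
    rw [hg, hr]
    simp
  obtain ⟨a, b, κ, hκ, h2, h3, e⟩ := six_part hn
  refine ⟨κ, hκ, h2, h3, fun ψ hψ => ?_⟩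
  obtain ⟨c1, c2, c3⟩ := hψ
  obtain ⟨τ, S6, μ, D⟩ := data_of hs2 hs3 ht hG c1 c2 c3
  rw [hr] at hg
  rw [phi_trans D.hτ D.hcl S6 D.hS6 g n k hg, e, pow_tau D.hτ hu]
  have f2 : ∀ (a : ℕ) (m : ℤ), ψ (τ (2 ^ a * m)) = ψ (τ m) := by
    intro a
    induction a with
    | zero => intro m; simp
    | succ a ih => intro m; rw [pow_succ', mul_assoc, D.h2, ih]
  have f3 : ∀ (b : ℕ) (m : ℤ), ψ (τ (3 ^ b * m)) = ψ (τ m) := by
    intro b
    induction b with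
    | zero => intro m; simp
    | succ b ih => intro m; rw [pow_succ', mul_assoc, D.h3, ih]
  rw [f2, f3]

/-- extreme traces vanishing at all the nontrivial powers of `u` -/
lemma eq_delta {φ : G → ℂ} (hφ : φ ∈ TS G) {u : G} (hu : ∀ x : ℚ, (u : Equiv.Perm ℚ) x = x + 1)
    (h : ∀ n : ℤ, n ≠ 0 → φ (u ^ n) = 0) :
    φ = Set.indicator ({1} : Set G) (fun _ => (1 : ℂ)) := by
  obtain ⟨c1, c2, c3⟩ := hφ
  obtain ⟨τ, S6, μ, D⟩ := data_of hs2 hs3 ht hG c1 c2 c3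
  funext g
  by_cases hg : g = 1
  · rw [hg, c1]
    simp
  · rw [eq_regular D.hτ D.h1 D.hcl D.hpd S6 D.hS6 D.hform (fun n hn => by
      rw [← pow_tau D.hτ hu]; exact h n hn) g hg]
    simp [hg]

/-- **The uniform inequality.** -/
theorem uniform {u : G} (hu : ∀ x : ℚ, (u : Equiv.Perm ℚ) x = x + 1) {F : Finset ℕ}
    (hF : ∀ m ∈ F, 0 < m ∧ ¬ 2 ∣ m ∧ ¬ 3 ∣ m) (hFn : F.Nonempty) {φ : G → ℂ}
    (hφ : φ ∈ (TS G).extremePoints ℝ) (hnf : ¬ FD φ) (w : ℕ → ℂ) :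
    ∃ ψ ∈ (TS G).extremePoints ℝ, ¬ FD ψ ∧
      (∃ L k : ℕ, 1 ≤ L ∧ 1 ≤ k ∧ ∀ m : ℤ, ψ (u ^ ((L : ℤ) * m)) = φ (u ^ ((k : ℤ) * m))) ∧
      ∀ m0 ∈ F, ∀ n : ℤ, n ≠ 0 →
        (∑ m ∈ F, w m * ψ (u ^ m)).re ≤ -(cF F * (‖w m0‖ * ‖φ (u ^ n)‖)) := by
  by_cases h0 : ∀ n : ℤ, n ≠ 0 → φ (u ^ n) = 0
  · refine ⟨φ, hφ, hnf, ⟨1, 1, le_rfl, le_rfl, fun m => rfl⟩, fun m0 hm0 n hn => ?_⟩
    rw [h0 n hn, norm_zero, mul_zero, mul_zero, neg_zero]
    have h1 : ∑ m ∈ F, w m * φ (u ^ m) = 0 := by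
      refine sum_eq_zero fun m hm => ?_
      have h2 := h0 (m : ℤ) (by exact_mod_cast (hF m hm).1.ne')
      rw [zpow_natCast] at h2
      rw [h2, mul_zero]
    rw [h1, Complex.zero_re]
  · push Not at h0
    obtain ⟨n1, hn1, hne⟩ := h0
    have hpd : PD φ := hφ.1.2.2
    have hone : φ 1 = 1 := hφ.1.1
    set A : Set ℝ := {v | ∃ k : ℤ, k ≠ 0 ∧ ‖φ (u ^ k)‖ = v} with hA
    have hAb : BddAbove A := ⟨1, by
      rintro v ⟨k, _, rfl⟩
      exact PD.norm_le hpd hone _⟩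
    have hAn : A.Nonempty := ⟨_, n1, hn1, rfl⟩
    have hVle : ∀ k : ℤ, k ≠ 0 → ‖φ (u ^ k)‖ ≤ sSup A := fun k hk => le_csSup hAb ⟨k, hk, rfl⟩
    have hVpos : 0 < sSup A := lt_of_lt_of_le (norm_pos_iff.2 hne) (hVle n1 hn1)
    obtain ⟨v, ⟨k, hk, rfl⟩, hv⟩ := exists_lt_of_lt_csSup hAn (by linarith : sSup A / 2 < sSup A)
    have hk' : ‖φ (u ^ ((k.natAbs : ℕ) : ℤ))‖ = ‖φ (u ^ k)‖ := by
      rcases Int.natAbs_eq k with h | h
      · rw [← h]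
      · have e : ((k.natAbs : ℕ) : ℤ) = -k := by omega
        rw [e, zpow_neg, hpd.inv hone, norm_star]
    obtain ⟨ψ, h1, h2, h3, h4⟩ := key hs2 hs3 ht hG hφ hnf hu hF hFn w hVle
      (n0 := k.natAbs) (by omega) (by rw [hk']; linarith)
    refine ⟨ψ, h1, h2, h3, fun m0 hm0 n hn => (h4 m0 hm0).trans ?_⟩
    have h5 := hVle n hn
    have h6 : ‖w m0‖ * ‖φ (u ^ n)‖ ≤ ‖w m0‖ * sSup A := mul_le_mul_of_nonneg_left h5 (norm_nonneg _)
    have h7 := mul_le_mul_of_nonneg_left h6 (cF_pos F).le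
    linarith

/-- reduction of a finite combination of translations -/
lemma reduce {u : G} (hu : ∀ x : ℚ, (u : Equiv.Perm ℚ) x = x + 1) {S : Finset G}
    (hS : ∀ g ∈ S, ∃ r : ℚ, ∀ x : ℚ, (g : Equiv.Perm ℚ) x = x + r) (c : G → ℂ) :
    ∃ (F : Finset ℕ) (w : ℕ → ℂ), (∀ m ∈ F, 0 < m ∧ ¬ 2 ∣ m ∧ ¬ 3 ∣ m) ∧
      ∀ ψ ∈ TS G, (∑ g ∈ S, c g * ψ g).re =
        (∑ g ∈ S, c g * Set.indicator ({1} : Set G) (fun _ => (1 : ℂ)) g).re +
          (∑ m ∈ F, w m * ψ (u ^ m)).re := by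
  classical
  have hcls : ∀ g : G, ∃ κ : ℤ, g ∈ S → g ≠ 1 → κ ≠ 0 ∧ ¬ 2 ∣ κ.natAbs ∧ ¬ 3 ∣ κ.natAbs ∧
      ∀ ψ ∈ TS G, ψ g = ψ (u ^ κ) := by
    intro g
    by_cases h : g ∈ S ∧ g ≠ 1
    · obtain ⟨κ, h1⟩ := class_of hs2 hs3 ht hG hu h.2 (hS g h.1)
      exact ⟨κ, fun _ _ => h1⟩
    · exact ⟨0, fun h1 h2 => absurd ⟨h1, h2⟩ h⟩
  choose κ hκ using hcls
  set S' := S.filter fun g => g ≠ 1 with hS'
  set c' : G → ℂ := fun g => if 0 < κ g then c g else starRingEnd ℂ (c g) with hc'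
  set F := S'.image fun g => (κ g).natAbs with hF
  set w : ℕ → ℂ := fun m => ∑ g ∈ S' with (κ g).natAbs = m, c' g with hw
  refine ⟨F, w, fun m hm => ?_, fun ψ hψ => ?_⟩
  · obtain ⟨g, hg, rfl⟩ := Finset.mem_image.1 hm
    obtain ⟨hgS, hg1⟩ := Finset.mem_filter.1 hg
    obtain ⟨h1, h2, h3, -⟩ := hκ g hgS hg1
    exact ⟨by omega, h2, h3⟩
  · have hsplit : ∀ f : G → ℂ, ∑ g ∈ S, f g = ∑ g ∈ S with g = 1, f g + ∑ g ∈ S', f g := by
      intro f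
      rw [hS', ← Finset.sum_filter_add_sum_filter_not S (fun g => g = 1)]
    rw [hsplit, hsplit (fun g => c g * Set.indicator ({1} : Set G) (fun _ => (1 : ℂ)) g),
      Complex.add_re, Complex.add_re]
    have h1 : ∑ g ∈ S with g = 1, c g * ψ g =
        ∑ g ∈ S with g = 1, c g * Set.indicator ({1} : Set G) (fun _ => (1 : ℂ)) g := by
      refine sum_congr rfl fun g hg => ?_
      rw [(Finset.mem_filter.1 hg).2, hψ.1]
      simp
    have h2 : ∑ g ∈ S', c g * Set.indicator ({1} : Set G) (fun _ => (1 : ℂ)) g = 0 := by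
      refine sum_eq_zero fun g hg => ?_
      have := (Finset.mem_filter.1 hg).2
      simp [this]
    have h3 : (∑ g ∈ S', c g * ψ g).re = (∑ m ∈ F, w m * ψ (u ^ m)).re := by
      have h4 : ∑ m ∈ F, w m * ψ (u ^ m) = ∑ g ∈ S', c' g * ψ (u ^ (κ g).natAbs) := by
        rw [hF, ← Finset.sum_fiberwise_of_maps_to (s := S') (t := S'.image fun g => (κ g).natAbs)
          (g := fun g => (κ g).natAbs) (fun g hg => Finset.mem_image_of_mem _ hg)]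
        refine sum_congr rfl fun m _ => ?_
        rw [hw]
        simp only
        rw [sum_mul]
        refine sum_congr rfl fun g hg => ?_
        rw [(Finset.mem_filter.1 hg).2]
      rw [h4, Complex.re_sum, Complex.re_sum]
      refine sum_congr rfl fun g hg => ?_
      obtain ⟨hgS, hg1⟩ := Finset.mem_filter.1 hg
      obtain ⟨hκ0, -, -, hκψ⟩ := hκ g hgS hg1
      rw [hκψ ψ hψ, hc']
      simp only
      split_ifs with hpos
      · have e : ((κ g).natAbs : ℤ) = κ g := by omega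
        rw [← zpow_natCast, e]
      · have e : ((κ g).natAbs : ℤ) = -κ g := by omega
        rw [← zpow_natCast, e, zpow_neg, hψ.2.2.inv hψ.1, Complex.star_def, ← map_mul,
          Complex.conj_re]
    rw [h1, h2, h3, Complex.zero_re, add_zero]

/-- **One inequality decides.** -/
theorem one_element {u : G} (hu : ∀ x : ℚ, (u : Equiv.Perm ℚ) x = x + 1) {S : Finset G}
    (hS : ∀ g ∈ S, ∃ r : ℚ, ∀ x : ℚ, (g : Equiv.Perm ℚ) x = x + r) (c : G → ℂ) :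
    (∀ φ ∈ (TS G).extremePoints ℝ, ¬ FD φ →
      (∑ g ∈ S, c g * Set.indicator ({1} : Set G) (fun _ => (1 : ℂ)) g).re ≤
        (∑ g ∈ S, c g * φ g).re) ↔
    ((∀ φ ∈ (TS G).extremePoints ℝ, φ = Set.indicator ({1} : Set G) (fun _ => (1 : ℂ)) ∨ FD φ) ∨
      ∀ φ ∈ TS G, (∑ g ∈ S, c g * φ g).re =
        (∑ g ∈ S, c g * Set.indicator ({1} : Set G) (fun _ => (1 : ℂ)) g).re) := by
  constructor
  · intro h
    by_contra hcon
    push Not at hcon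
    obtain ⟨⟨φ, hφ, hne, hnf⟩, ψ₁, hψ₁, hne₁⟩ := hcon
    obtain ⟨F, w, hF, hred⟩ := reduce hs2 hs3 ht hG hu hS c
    have hex : ∃ m0 ∈ F, w m0 ≠ 0 := by
      by_contra hcon
      push Not at hcon
      apply hne₁
      have h0 : ∑ m ∈ F, w m * ψ₁ (u ^ m) = 0 :=
        Finset.sum_eq_zero fun m hm => by rw [hcon m hm, zero_mul]
      rw [hred ψ₁ hψ₁, h0, Complex.zero_re, add_zero]
    obtain ⟨m0, hm0, hw0⟩ := hex
    obtain ⟨n, hn, hφn⟩ : ∃ n : ℤ, n ≠ 0 ∧ φ (u ^ n) ≠ 0 := by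
      by_contra hcon
      push Not at hcon
      exact hne (eq_delta hs2 hs3 ht hG hφ.1 hu hcon)
    obtain ⟨ψ, hψ, hψnf, -, h1⟩ := uniform hs2 hs3 ht hG hu hF ⟨m0, hm0⟩ hφ hnf w
    have h2 := h1 m0 hm0 n hn
    have h3 := h ψ hψ hψnf
    rw [hred ψ hψ.1] at h3
    have h4 : 0 < cF F * (‖w m0‖ * ‖φ (u ^ n)‖) :=
      mul_pos (cF_pos F) (mul_pos (norm_pos_iff.2 hw0) (norm_pos_iff.2 hφn))
    linarith
  · rintro (h | h) φ hφ hnf
    · rcases h φ hφ with h1 | h1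
      · rw [h1]
      · exact absurd h1 hnf
    · rw [h φ hφ.1]

/-- **Half planes.** -/
theorem half_plane {u : G} (hu : ∀ x : ℚ, (u : Equiv.Perm ℚ) x = x + 1) {g : G} (hg1 : g ≠ 1)
    (hg : ∃ r : ℚ, ∀ x : ℚ, (g : Equiv.Perm ℚ) x = x + r) {ω : ℂ} (hω : ω ≠ 0) :
    (∀ φ ∈ (TS G).extremePoints ℝ, φ = Set.indicator ({1} : Set G) (fun _ => (1 : ℂ)) ∨ FD φ) ↔
      ∀ φ ∈ (TS G).extremePoints ℝ, ¬ FD φ → 0 ≤ (ω * φ g).re := by
  have h := one_element hs2 hs3 ht hG hu (S := {g}) (by simpa using hg) (fun _ => ω)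
  simp only [Finset.sum_singleton] at h
  have h0 : Set.indicator ({1} : Set G) (fun _ => (1 : ℂ)) g = 0 := by simp [hg1]
  rw [h0, mul_zero, Complex.zero_re] at h
  constructor
  · intro h1
    exact h.2 (Or.inl h1)
  · intro h1
    rcases h.1 h1 with h2 | h2
    · exact h2
    · exfalso
      obtain ⟨κ, hκ, -, -, hκψ⟩ := class_of hs2 hs3 ht hG hu hg1 hg
      obtain ⟨s, hs, hsre⟩ := exists_dir ω
      obtain ⟨α, hα, α2, α3, -, hακ⟩ := V_int (n := κ) hκ hs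
      obtain ⟨ψ, e1, e2, e3, e4, -⟩ := trace_of_measure hs2 hs3 ht hG α α2 α3
      obtain ⟨τ, S6, μ, D⟩ := data_of hs2 hs3 ht hG e1 e2 e3
      have h3 : ψ g = s := by
        rw [hκψ ψ ⟨e1, e2, e3⟩, ← hακ]
        refine e4 _ κ 0 fun x => ?_
        rw [pow_tau D.hτ hu, D.hτ]
        simp
      have h4 := h2 ψ ⟨e1, e2, e3⟩
      rw [h3, mul_comm] at h4
      have h5 : 0 < ‖ω‖ := norm_pos_iff.2 hω
      linarith

end

end Run7.h303.TR
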