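import Pool.Agent.Run7.h303.TR.Bessel
import Pool.Agent.Run7.h303.TR.One

/-!
Roots of extreme traces of order `R ^ k`, and the isolation of the regular trace.
-/

set_option autoImplicit false

open MeasureTheory Filter Topology Finset
open scoped ENNReal ComplexOrder

namespace Run7.h303.TR

open Pool.Agent.W763.Tr
open Pool.Agent.TH654.FC
open Pool.Agent.Y253.TR
open Pool.Agent.R481.TraceBT (vanish)
open Pool.Agent.N276.TT (pow_tau)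

/-- the quotient in Bessel's inequality -/
lemma quot_le {R C : ℕ} (hR0 : R ≠ 0) (hC : ∀ n k : ℕ, n ∣ R ^ k → n ≤ C * cls n) (k : ℕ) {m : ℕ}
    (hm : 0 < m) : (1 : ℝ) / cls (R ^ k / (R ^ k).gcd m) ≤ C * ((R ^ k).gcd m) / (R ^ k : ℕ) := by
  set N := R ^ k with hN
  have hN0 : N ≠ 0 := pow_ne_zero _ hR0
  have hg : 0 < N.gcd m := Nat.gcd_pos_of_pos_right _ hm
  have hN' : N / N.gcd m ≠ 0 := by
    have := Nat.div_pos (Nat.le_of_dvd (Nat.pos_of_ne_zero hN0) (Nat.gcd_dvd_left N m)) hg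
    omega
  have h1 := hC (N / N.gcd m) k (Nat.div_dvd_of_dvd (Nat.gcd_dvd_left N m))
  have h2 : N = N / N.gcd m * N.gcd m := (Nat.div_mul_cancel (Nat.gcd_dvd_left N m)).symm
  have hc := cls_pos hN'
  have h3 : N ≤ C * cls (N / N.gcd m) * N.gcd m := by
    calc N = N / N.gcd m * N.gcd m := h2
      _ ≤ _ := Nat.mul_le_mul_right _ h1
  rw [div_le_div_iff₀ (by exact_mod_cast hc) (by exact_mod_cast Nat.pos_of_ne_zero hN0)]
  have h4 : (N : ℝ) ≤ C * cls (N / N.gcd m) * N.gcd m := by exact_mod_cast h3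
  linarith

lemma sum_sq_le (M : ℕ) : ∑ m ∈ Icc 1 M, (1 : ℝ) / (m : ℝ) ^ 2 ≤ 2 := by
  rcases Nat.eq_zero_or_pos M with h | h
  · rw [h]
    simp
  · have h1 := sum_Ioc_inv_sq_le_sub (α := ℝ) (k := 1) (n := M) one_ne_zero h
    have h2 : Icc 1 M = insert 1 (Ioc 1 M) := by
      ext x
      simp only [mem_Icc, mem_insert, mem_Ioc]
      omega
    rw [h2, sum_insert (by simp)]
    have h3 : ∑ x ∈ Ioc 1 M, (1 : ℝ) / (x : ℝ) ^ 2 = ∑ i ∈ Ioc 1 M, ((i : ℝ) ^ 2)⁻¹ :=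
      sum_congr rfl fun x _ => one_div _
    rw [h3]
    have h4 : (0 : ℝ) ≤ (M : ℝ)⁻¹ := by positivity
    norm_num at h1 ⊢
    linarith

section

variable {s2 s3 t : Equiv.Perm ℚ} (hs2 : ∀ x, s2 x = 2 * x) (hs3 : ∀ x, s3 x = 3 * x)
  (ht : ∀ x, t x = x + 1) {G : Subgroup (Equiv.Perm ℚ)} (hG : G = Subgroup.closure {s2, s3, t})

include hs2 hs3 ht hG

/-- roots of order `R ^ k` with small values -/
theorem small_root_pow {u : G} (hu : ∀ x : ℚ, (u : Equiv.Perm ℚ) x = x + 1) {R C : ℕ}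
    (hR : Nat.Coprime R 6) (hC0 : 0 < C) (hC : ∀ n k : ℕ, n ∣ R ^ k → n ≤ C * cls n) (k : ℕ)
    {φ : G → ℂ} (hφ : φ ∈ (TS G).extremePoints ℝ) (hnf : ¬ FD φ) :
    ∃ ψ ∈ (TS G).extremePoints ℝ, ¬ FD ψ ∧
      (∀ m : ℤ, ψ (u ^ (((R ^ k : ℕ) : ℤ) * m)) = φ (u ^ m)) ∧
      ∀ m : ℕ, 0 < m → ‖ψ (u ^ m)‖ ^ 2 ≤ 2 * C * (m : ℝ) ^ 3 / (R : ℝ) ^ k := by
  have hR0 : R ≠ 0 := by
    rintro rfl
    norm_num at hR
  have hRk : Nat.Coprime (R ^ k) 6 := hR.pow_left k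
  have h2N : ¬ 2 ∣ R ^ k := by
    intro hd
    have := Nat.dvd_gcd hd (by norm_num : 2 ∣ 6)
    rw [hRk] at this
    omega
  have h3N : ¬ 3 ∣ R ^ k := by
    intro hd
    have := Nat.dvd_gcd hd (by norm_num : 3 ∣ 6)
    rw [hRk] at this
    omega
  set N := R ^ k with hN
  have hN0 : N ≠ 0 := pow_ne_zero _ hR0
  have hNpos : (0 : ℝ) < N := by exact_mod_cast Nat.pos_of_ne_zero hN0
  obtain ⟨ψ, h1, h2, h3, h4⟩ := small_root hs2 hs3 ht hG hu hN0 h2N h3N hφ hnf (Icc 1 N)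
    (fun m hm => (mem_Icc.1 hm).1) (fun m => 1 / (m : ℝ) ^ 3) (fun m _ => by positivity)
  refine ⟨ψ, h1, h2, h3, fun m hm => ?_⟩
  have hNR : (N : ℝ) = (R : ℝ) ^ k := by rw [hN]; push_cast; rfl
  rw [← hNR]
  have hC1 : (1 : ℝ) ≤ C := by exact_mod_cast hC0
  have hm0 : (0 : ℝ) < m := by exact_mod_cast hm
  rcases le_or_gt m N with hmN | hmN
  · have h5 : ∑ m ∈ Icc 1 N, (1 / (m : ℝ) ^ 3 * ((1 : ℝ) / (cls (N / N.gcd m) : ℝ)) : ℝ) ≤
        2 * C / N := by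
      have h6 : ∀ m ∈ Icc 1 N, (1 / (m : ℝ) ^ 3 * ((1 : ℝ) / (cls (N / N.gcd m) : ℝ)) : ℝ) ≤
          C / N * (1 / (m : ℝ) ^ 2) := by
        intro m hm
        have hm1 := (mem_Icc.1 hm).1
        have hm2 : (0 : ℝ) < m := by exact_mod_cast hm1
        have h7 := quot_le hR0 hC k hm1
        rw [← hN] at h7
        have h8 : ((N.gcd m : ℕ) : ℝ) ≤ m := by exact_mod_cast Nat.gcd_le_right N hm1
        calc 1 / (m : ℝ) ^ 3 * ((1 : ℝ) / (cls (N / N.gcd m) : ℝ)) ≤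
              1 / (m : ℝ) ^ 3 * (C * N.gcd m / N) :=
              mul_le_mul_of_nonneg_left h7 (by positivity)
          _ ≤ 1 / (m : ℝ) ^ 3 * (C * m / N) := by gcongr
          _ = C / N * (1 / (m : ℝ) ^ 2) := by field_simp
      refine (sum_le_sum h6).trans ?_
      rw [← mul_sum]
      calc (C : ℝ) / N * ∑ m ∈ Icc 1 N, 1 / (m : ℝ) ^ 2 ≤ C / N * 2 :=
            mul_le_mul_of_nonneg_left (sum_sq_le N) (by positivity)
        _ = 2 * C / N := by ring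
    have h6 : 1 / (m : ℝ) ^ 3 * ‖ψ (u ^ m)‖ ^ 2 ≤
        ∑ m ∈ Icc 1 N, 1 / (m : ℝ) ^ 3 * ‖ψ (u ^ m)‖ ^ 2 :=
      single_le_sum (f := fun m : ℕ => 1 / (m : ℝ) ^ 3 * ‖ψ (u ^ m)‖ ^ 2)
        (fun i _ => by positivity) (mem_Icc.2 ⟨hm, hmN⟩)
    have h7 := h6.trans (h4.trans h5)
    have h8 := mul_le_mul_of_nonneg_left h7 (by positivity : (0 : ℝ) ≤ (m : ℝ) ^ 3)
    calc ‖ψ (u ^ m)‖ ^ 2 = (m : ℝ) ^ 3 * (1 / (m : ℝ) ^ 3 * ‖ψ (u ^ m)‖ ^ 2) := by field_simp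
      _ ≤ (m : ℝ) ^ 3 * (2 * C / N) := h8
      _ = 2 * C * (m : ℝ) ^ 3 / N := by ring
  · have h5 : ‖ψ (u ^ m)‖ ≤ 1 := PD.norm_le h1.1.2.2 h1.1.1 _
    have h6 : ‖ψ (u ^ m)‖ ^ 2 ≤ 1 := pow_le_one₀ (norm_nonneg _) h5
    refine h6.trans ?_
    rw [le_div_iff₀ hNpos, one_mul]
    have h7 : (N : ℝ) ≤ m := by exact_mod_cast hmN.le
    have h8 : (m : ℝ) ≤ (m : ℝ) ^ 3 := by
      have h9 : (1 : ℝ) ≤ m := by exact_mod_cast hm
      exact le_self_pow₀ h9 (by norm_num)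
    have h10 : (m : ℝ) ^ 3 ≤ 2 * C * (m : ℝ) ^ 3 := by
      have : (1 : ℝ) ≤ 2 * C := by linarith
      exact le_mul_of_one_le_left (by positivity) this
    linarith

/-- **The isolation of the regular trace.** -/
theorem isolated {u : G} (hu : ∀ x : ℚ, (u : Equiv.Perm ℚ) x = x + 1) :
    (∀ φ ∈ (TS G).extremePoints ℝ, φ = Set.indicator ({1} : Set G) (fun _ => (1 : ℂ)) ∨ FD φ) ↔
      ∃ (F : Finset G) (ε : ℝ), 0 < ε ∧ (∀ g ∈ F, g ≠ 1) ∧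
        ∀ φ ∈ (TS G).extremePoints ℝ, ¬ FD φ → (∀ g ∈ F, ‖φ g‖ ≤ ε) →
          φ = Set.indicator ({1} : Set G) (fun _ => (1 : ℂ)) := by
  constructor
  · intro h
    exact ⟨∅, 1, one_pos, fun g hg => absurd hg (Finset.notMem_empty g), fun φ hφ hnf _ =>
      (h φ hφ).resolve_right hnf⟩
  · rintro ⟨F, ε, hε, hF1, h⟩ φ hφ
    by_contra hcon
    push Not at hcon
    obtain ⟨hne, hnf⟩ := hcon
    obtain ⟨C, hC0, hC⟩ := cls_ge (R := 5) (by norm_num)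
    -- the exponents
    have hcls : ∀ g : G, ∃ κ : ℤ, g ∈ F → (∃ r : ℚ, ∀ x : ℚ, (g : Equiv.Perm ℚ) x = x + r) →
        κ ≠ 0 ∧ ∀ ψ ∈ TS G, ψ g = ψ (u ^ κ) := by
      intro g
      by_cases hg : g ∈ F ∧ (∃ r : ℚ, ∀ x : ℚ, (g : Equiv.Perm ℚ) x = x + r)
      · obtain ⟨κ, h1, -, -, h2⟩ := class_of hs2 hs3 ht hG hu (hF1 g hg.1) hg.2
        exact ⟨κ, fun _ _ => ⟨h1, h2⟩⟩
      · exact ⟨0, fun h1 h2 => absurd ⟨h1, h2⟩ hg⟩
    choose κ hκ using hcls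
    set M := F.sup fun g => (κ g).natAbs with hM
    obtain ⟨k, hk⟩ : ∃ k : ℕ, 2 * C * (M : ℝ) ^ 3 / ε ^ 2 < (5 : ℝ) ^ k :=
      pow_unbounded_of_one_lt _ (by norm_num)
    obtain ⟨ψ, h1, h2, h3, h4⟩ := small_root_pow hs2 hs3 ht hG hu (R := 5) (by norm_num) hC0 hC k
      hφ hnf
    have hψ : ∀ g ∈ F, ‖ψ g‖ ≤ ε := by
      intro g hg
      by_cases hgt : ∃ r : ℚ, ∀ x : ℚ, (g : Equiv.Perm ℚ) x = x + r
      · obtain ⟨hκ0, hκψ⟩ := hκ g hg hgt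
        have e1 : ‖ψ g‖ = ‖ψ (u ^ (κ g).natAbs)‖ := by
          rw [hκψ ψ h1.1]
          rcases Int.natAbs_eq (κ g) with hs | hs
          · conv_lhs => rw [hs, zpow_natCast]
          · conv_lhs => rw [hs, zpow_neg, h1.1.2.2.inv h1.1.1, norm_star, zpow_natCast]
        rw [e1]
        have h5 := h4 (κ g).natAbs (by omega)
        have h6 : ((κ g).natAbs : ℝ) ≤ M := by
          exact_mod_cast Finset.le_sup (f := fun g => (κ g).natAbs) hg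
        have h7 : 2 * C * ((κ g).natAbs : ℝ) ^ 3 / ((5 : ℕ) : ℝ) ^ k ≤ ε ^ 2 := by
          rw [div_lt_iff₀ (by positivity)] at hk
          rw [div_le_iff₀ (by positivity)]
          have h8 : ((κ g).natAbs : ℝ) ^ 3 ≤ (M : ℝ) ^ 3 := by gcongr
          have h9 : (2 : ℝ) * C * ((κ g).natAbs : ℝ) ^ 3 ≤ 2 * C * (M : ℝ) ^ 3 :=
            mul_le_mul_of_nonneg_left h8 (by positivity)
          push_cast
          linarith
        exact (pow_le_pow_iff_left₀ (norm_nonneg _) hε.le two_ne_zero).1 (h5.trans h7)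
      · obtain ⟨c1, c2, c3⟩ := h1.1
        obtain ⟨τ, S6, μ, D⟩ := data_of hs2 hs3 ht hG c1 c2 c3
        rw [vanish D (atomless D h1 h2) g hgt, norm_zero]
        exact hε.le
    have hψΔ := h ψ h1 h2 hψ
    apply hne
    refine eq_delta hs2 hs3 ht hG hφ.1 hu fun n hn => ?_
    rw [← h3, hψΔ, Set.indicator_of_notMem]
    rw [Set.mem_singleton_iff]
    intro h5
    have h6 : ∀ n : ℤ, ((u ^ n : G) : Equiv.Perm ℚ) 0 = n := by
      intro n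
      obtain ⟨c1, c2, c3⟩ := hφ.1
      obtain ⟨τ, S6, μ, D⟩ := data_of hs2 hs3 ht hG c1 c2 c3
      rw [pow_tau D.hτ hu, D.hτ, zero_add]
    have h7 := h6 (((5 ^ k : ℕ) : ℤ) * n)
    rw [h5] at h7
    have h8 : ((((5 ^ k : ℕ) : ℤ) * n : ℤ) : ℚ) = 0 := by
      rw [← h7]
      simp
    have h9 : ((5 ^ k : ℕ) : ℤ) * n = 0 := by exact_mod_cast h8
    rcases mul_eq_zero.1 h9 with h10 | h10
    · have : (5 ^ k : ℕ) ≠ 0 := by positivity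
      exact this (by exact_mod_cast h10)
    · exact hn h10

end

end Run7.h303.TR
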