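import Pool.Agent.Run7.h303.TR.Erg
import Pool.Agent.R203.ID.Fou
import Mathlib.NumberTheory.Multiplicity

/-!
Averages of characters over the residues of the numbers `2 ^ i 3 ^ j`; the lift of a measure through
`x ↦ N x` dominates it; sums of mutually singular measures.
-/

set_option autoImplicit false

open MeasureTheory Filter Topology Finset
open scoped ENNReal

namespace Run7.h303.TR

open Pool.Agent.R203.ID (hat norm_f f_add f_zero norm_hat_le ext_hat hat_map_nsmul inv_iff)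

/-- the number of the residue classes modulo `n` of the numbers `2 ^ i 3 ^ j` -/
noncomputable def cls (n : ℕ) : ℕ :=
  (Set.range fun p : ℕ × ℕ => ((2 ^ p.1 * 3 ^ p.2 : ℕ) : ZMod n)).ncard

lemma exists_reps {n : ℕ} (hn : n ≠ 0) : ∃ U : Finset ℕ, U.card = cls n ∧
    (∀ a ∈ U, ∃ i j : ℕ, a = 2 ^ i * 3 ^ j) ∧
    ∀ a ∈ U, ∀ b ∈ U, (n : ℤ) ∣ (a : ℤ) - b → a = b := by
  classical
  haveI : NeZero n := ⟨hn⟩
  set C : Set (ZMod n) := Set.range fun p : ℕ × ℕ => ((2 ^ p.1 * 3 ^ p.2 : ℕ) : ZMod n) with hC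
  have hCf : C.Finite := Set.toFinite C
  have hr : ∀ c : ZMod n, ∃ a : ℕ, c ∈ C → (∃ i j : ℕ, a = 2 ^ i * 3 ^ j) ∧ (a : ZMod n) = c := by
    intro c
    by_cases h : c ∈ C
    · obtain ⟨p, hp⟩ := h
      exact ⟨2 ^ p.1 * 3 ^ p.2, fun _ => ⟨⟨p.1, p.2, rfl⟩, hp⟩⟩
    · exact ⟨0, fun h' => absurd h' h⟩
  choose r hr using hr
  have hinj : Set.InjOn r (hCf.toFinset : Set (ZMod n)) := by
    intro c hc d hd hcd
    rw [Finset.mem_coe, Set.Finite.mem_toFinset] at hc hd
    rw [← (hr c hc).2, ← (hr d hd).2, hcd]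
  refine ⟨hCf.toFinset.image r, ?_, ?_, ?_⟩
  · rw [Finset.card_image_of_injOn hinj, cls, Set.ncard_eq_toFinset_card C hCf]
  · intro a ha
    obtain ⟨c, hc, rfl⟩ := Finset.mem_image.1 ha
    exact (hr c (hCf.mem_toFinset.1 hc)).1
  · intro a ha b hb hab
    obtain ⟨c, hc, rfl⟩ := Finset.mem_image.1 ha
    obtain ⟨d, hd, rfl⟩ := Finset.mem_image.1 hb
    have h1 := (hr c (hCf.mem_toFinset.1 hc)).2
    have h2 := (hr d (hCf.mem_toFinset.1 hd)).2
    have h3 : ((r c : ℤ) : ZMod n) = ((r d : ℤ) : ZMod n) := by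
      rw [ZMod.intCast_eq_intCast_iff_dvd_sub, ← dvd_neg, neg_sub]
      exact hab
    have h4 : c = d := by
      rw [← h1, ← h2]
      exact_mod_cast h3
    rw [h4]

lemma cls_pos {n : ℕ} (hn : n ≠ 0) : 0 < cls n := by
  haveI : NeZero n := ⟨hn⟩
  unfold cls
  rw [Set.ncard_pos (Set.toFinite _)]
  exact ⟨_, (0, 0), rfl⟩

/-- the average of the characters `m a`, `a ∈ U` -/
noncomputable def avg (U : Finset ℕ) (m : ℤ) (x : UnitAddCircle) : ℂ :=
  (1 / U.card : ℂ) * ∑ a ∈ U, (fourier (m * a) x : ℂ)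

lemma avg_cont (U : Finset ℕ) (m : ℤ) : Continuous (avg U m) := by
  unfold avg
  fun_prop

lemma avg_int {U : Finset ℕ} (hU : U.Nonempty) (h23 : ∀ a ∈ U, ∃ i j : ℕ, a = 2 ^ i * 3 ^ j)
    {ν : Measure UnitAddCircle} [IsProbabilityMeasure ν]
    (h2 : MeasurePreserving (fun x : UnitAddCircle => 2 • x) ν ν)
    (h3 : MeasurePreserving (fun x : UnitAddCircle => 3 • x) ν ν) (m : ℤ) :
    ∫ x, avg U m x ∂ν = hat ν m := by
  have hinv : ∀ a ∈ U, ∫ x, (fourier (m * a) x : ℂ) ∂ν = hat ν m := by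
    intro a ha
    obtain ⟨i, j, rfl⟩ := h23 a ha
    have e2 : ∀ (i : ℕ) (k : ℤ), hat ν (k * 2 ^ i) = hat ν k := by
      intro i
      induction i with
      | zero => intro k; simp
      | succ i ih =>
        intro k
        have := (inv_iff 2).1 h2 (k * 2 ^ i)
        rw [ih] at this
        rw [← this]
        congr 1
        push_cast
        ring
    have e3 : ∀ (j : ℕ) (k : ℤ), hat ν (k * 3 ^ j) = hat ν k := by
      intro j
      induction j with
      | zero => intro k; simp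
      | succ j ih =>
        intro k
        have := (inv_iff 3).1 h3 (k * 3 ^ j)
        rw [ih] at this
        rw [← this]
        congr 1
        push_cast
        ring
    have e : m * ((2 ^ i * 3 ^ j : ℕ) : ℤ) = m * 2 ^ i * 3 ^ j := by push_cast; ring
    rw [e]
    exact (e3 j _).trans (e2 i m)
  have hi : ∀ a ∈ U, Integrable (fun x : UnitAddCircle => (fourier (m * (a : ℤ)) x : ℂ)) ν :=
    fun a _ => Integrable.of_bound (fourier (m * (a : ℤ))).continuous.aestronglyMeasurable 1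
      (Eventually.of_forall fun x => (norm_f _ x).le)
  unfold avg
  rw [integral_const_mul, integral_finsetSum U hi, sum_congr rfl hinv, sum_const, nsmul_eq_mul]
  have : (U.card : ℂ) ≠ 0 := by exact_mod_cast hU.card_pos.ne'
  field_simp

lemma avg_norm (U : Finset ℕ) (m : ℤ) (x : UnitAddCircle) : ‖avg U m x‖ ≤ 1 := by
  unfold avg
  rw [norm_mul]
  rcases U.eq_empty_or_nonempty with h | h
  · simp [h]
  have hc : (0 : ℝ) < U.card := by exact_mod_cast h.card_pos
  have h1 : ‖(1 / U.card : ℂ)‖ = 1 / U.card := by simp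
  have h2 : ‖∑ a ∈ U, (fourier (m * a) x : ℂ)‖ ≤ U.card := by
    refine (norm_sum_le _ _).trans ?_
    simp only [norm_f, sum_const, nsmul_eq_mul, mul_one]
    exact le_rfl
  rw [h1]
  calc 1 / (U.card : ℝ) * ‖∑ a ∈ U, (fourier (m * a) x : ℂ)‖ ≤ 1 / U.card * U.card :=
        mul_le_mul_of_nonneg_left h2 (by positivity)
    _ = 1 := by field_simp

/-- the square of the average -/
lemma avg_sq (U : Finset ℕ) (m : ℤ) (x : UnitAddCircle) : ((‖avg U m x‖ ^ 2 : ℝ) : ℂ) =
    (1 / U.card : ℂ) ^ 2 * ∑ a ∈ U, ∑ b ∈ U, (fourier (m * (a - b)) x : ℂ) := by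
  have e1 : ((‖avg U m x‖ ^ 2 : ℝ) : ℂ) = avg U m x * starRingEnd ℂ (avg U m x) := by
    rw [Complex.mul_conj, Complex.normSq_eq_norm_sq]
  rw [e1]
  unfold avg
  rw [map_mul, map_div₀, map_one, Complex.conj_natCast, map_sum, mul_mul_mul_comm, ← sq,
    Finset.sum_mul_sum]
  congr 1
  refine sum_congr rfl fun a _ => sum_congr rfl fun b _ => ?_
  rw [← fourier_neg, ← fourier_add]
  congr 1
  ring_nf

/-- the mean square as a combination of Fourier coefficients -/
lemma avg_sq_int (U : Finset ℕ) (m : ℤ) (ν : Measure UnitAddCircle) [IsFiniteMeasure ν] :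
    ((∫ x, ‖avg U m x‖ ^ 2 ∂ν : ℝ) : ℂ) =
      (1 / U.card : ℂ) ^ 2 * ∑ a ∈ U, ∑ b ∈ U, hat ν (m * (a - b)) := by
  rw [← integral_complex_ofReal]
  simp only [avg_sq]
  have hi : ∀ k : ℤ, Integrable (fun x : UnitAddCircle => (fourier k x : ℂ)) ν := fun k =>
    Integrable.of_bound (fourier k).continuous.aestronglyMeasurable 1
      (Eventually.of_forall fun x => (norm_f _ x).le)
  rw [integral_const_mul, integral_finsetSum _ fun a _ => integrable_finsetSum _ fun b _ => hi _]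
  congr 1
  refine sum_congr rfl fun a _ => ?_
  rw [integral_finsetSum _ fun b _ => hi _]
  rfl

/-- measures whose coefficients vanish off the multiples of `N` -/
lemma avg_sq_lift {N : ℕ} (hN : N ≠ 0) {m : ℕ} (hm : 0 < m) {U : Finset ℕ} (hU : U.Nonempty)
    (hinj : ∀ a ∈ U, ∀ b ∈ U, ((N / N.gcd m : ℕ) : ℤ) ∣ (a : ℤ) - b → a = b)
    {ν : Measure UnitAddCircle} [IsFiniteMeasure ν]
    (h : ∀ k : ℤ, ¬ (N : ℤ) ∣ k → hat ν k = 0) :
    ∫ x, ‖avg U (m : ℤ) x‖ ^ 2 ∂ν = ν.real Set.univ / U.card := by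
  have h0 : hat ν 0 = (ν.real Set.univ : ℂ) := by
    unfold hat
    simp
  have key : ∀ a ∈ U, ∑ b ∈ U, hat ν ((m : ℤ) * (a - b)) = (ν.real Set.univ : ℂ) := by
    intro a ha
    rw [Finset.sum_eq_single_of_mem a ha]
    · rw [sub_self, mul_zero, h0]
    · intro b hb hba
      refine h _ fun hd => hba ?_
      refine (hinj a ha b hb ?_).symm
      have hg : 0 < N.gcd m := Nat.gcd_pos_of_pos_left _ (Nat.pos_of_ne_zero hN)
      have hcop : IsCoprime ((N / N.gcd m : ℕ) : ℤ) ((m / N.gcd m : ℕ) : ℤ) :=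
        Nat.isCoprime_iff_coprime.2 (Nat.coprime_div_gcd_div_gcd hg)
      have e1 : (N : ℤ) = ((N / N.gcd m : ℕ) : ℤ) * (N.gcd m : ℤ) := by
        exact_mod_cast (Nat.div_mul_cancel (Nat.gcd_dvd_left N m)).symm
      have e2 : (m : ℤ) = ((m / N.gcd m : ℕ) : ℤ) * (N.gcd m : ℤ) := by
        exact_mod_cast (Nat.div_mul_cancel (Nat.gcd_dvd_right N m)).symm
      have hg0 : (N.gcd m : ℤ) ≠ 0 := by exact_mod_cast hg.ne'
      have hd' : ((N / N.gcd m : ℕ) : ℤ) * (N.gcd m : ℤ) ∣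
          (((m / N.gcd m : ℕ) : ℤ) * ((a : ℤ) - b)) * (N.gcd m : ℤ) := by
        rw [← e1]
        have e3 : (((m / N.gcd m : ℕ) : ℤ) * ((a : ℤ) - b)) * (N.gcd m : ℤ) =
            (((m / N.gcd m : ℕ) : ℤ) * (N.gcd m : ℤ)) * ((a : ℤ) - b) := by ring
        rw [e3, ← e2]
        exact hd
      exact hcop.dvd_of_dvd_mul_left (Int.dvd_of_mul_dvd_mul_right hg0 hd')
  have h1 := avg_sq_int U (m : ℤ) ν
  rw [sum_congr rfl key, sum_const, nsmul_eq_mul] at h1
  have hc : (U.card : ℂ) ≠ 0 := by exact_mod_cast hU.card_pos.ne'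
  have h2 : ((∫ x, ‖avg U (m : ℤ) x‖ ^ 2 ∂ν : ℝ) : ℂ) = ((ν.real Set.univ / U.card : ℝ) : ℂ) := by
    rw [h1]
    push_cast
    field_simp
  exact_mod_cast h2

/-- Cauchy-Schwarz -/
lemma jensen {ν : Measure UnitAddCircle} [IsProbabilityMeasure ν] {A : UnitAddCircle → ℂ}
    (hA : Continuous A) (hb : ∀ x, ‖A x‖ ≤ 1) : ‖∫ x, A x ∂ν‖ ^ 2 ≤ ∫ x, ‖A x‖ ^ 2 ∂ν := by
  set c : ℝ := ∫ x, ‖A x‖ ∂ν with hc
  have h1 : ‖∫ x, A x ∂ν‖ ≤ c := norm_integral_le_integral_norm _
  have hi1 : Integrable (fun x => ‖A x‖) ν :=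
    Integrable.of_bound hA.norm.aestronglyMeasurable 1
      (Eventually.of_forall fun x => by rw [norm_norm]; exact hb x)
  have hi2 : Integrable (fun x => ‖A x‖ ^ 2) ν :=
    Integrable.of_bound (hA.norm.pow 2).aestronglyMeasurable 1
      (Eventually.of_forall fun x => by
        rw [Real.norm_of_nonneg (by positivity)]
        exact pow_le_one₀ (norm_nonneg _) (hb x))
  have h2 : 0 ≤ ∫ x, (‖A x‖ - c) ^ 2 ∂ν := integral_nonneg fun x => by positivity
  have h3 : ∫ x, (‖A x‖ - c) ^ 2 ∂ν = ∫ x, ‖A x‖ ^ 2 ∂ν - c ^ 2 := by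
    have e : ∀ x, (‖A x‖ - c) ^ 2 = ‖A x‖ ^ 2 - (2 * c * ‖A x‖ - c ^ 2) := fun x => by ring
    have hi3 : Integrable (fun x => 2 * c * ‖A x‖ - c ^ 2) ν :=
      (hi1.const_mul _).sub (integrable_const _)
    have e4 : ∫ x, (2 * c * ‖A x‖ - c ^ 2) ∂ν = c ^ 2 := by
      rw [integral_sub (hi1.const_mul _) (integrable_const _), integral_const_mul, ← hc]
      simp
      ring
    simp only [e]
    rw [integral_sub hi2 hi3, e4]
  have h4 : ‖∫ x, A x ∂ν‖ ^ 2 ≤ c ^ 2 := pow_le_pow_left₀ (norm_nonneg _) h1 2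
  linarith

/-- the point `1 / N` -/
noncomputable def pN (N : ℕ) : UnitAddCircle := ((1 / N : ℝ) : UnitAddCircle)

lemma pN_tors {N : ℕ} (hN : N ≠ 0) : N • pN N = 0 := by
  unfold pN
  rw [← AddCircle.coe_nsmul, nsmul_eq_mul, mul_one_div_cancel (by exact_mod_cast hN)]
  exact AddCircle.coe_period 1

lemma f_mul (m : ℤ) (k : ℕ) (x : UnitAddCircle) :
    (fourier m (k • x) : ℂ) = (fourier m x : ℂ) ^ k := by
  induction k with
  | zero => rw [zero_smul, f_zero, pow_zero]
  | succ k ih => rw [succ_nsmul, f_add, ih, pow_succ]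

lemma sum_roots {N : ℕ} (hN : N ≠ 0) (m : ℤ) : ∑ k ∈ range N, (fourier m (k • pN N) : ℂ) =
    if (N : ℤ) ∣ m then (N : ℂ) else 0 := by
  have hN' : (N : ℝ) ≠ 0 := by exact_mod_cast hN
  simp only [f_mul]
  have hpow : (fourier m (pN N) : ℂ) ^ N = 1 := by
    rw [← f_mul, pN_tors hN, f_zero]
  split_ifs with h
  · obtain ⟨l, rfl⟩ := h
    have h1 : (fourier ((N : ℤ) * l) (pN N) : ℂ) = 1 := by
      have h2 : (fourier ((N : ℤ) * l) (pN N) : ℂ) = fourier l (N • pN N) := by
        rw [Pool.Agent.R203.ID.f_nsmul, mul_comm]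
      rw [h2, pN_tors hN, f_zero]
    simp [h1]
  · have hne : (fourier m (pN N) : ℂ) ≠ 1 := by
      intro h1
      apply h
      have h2 : m • pN N = 0 := by
        apply AddCircle.injective_toCircle (T := (1 : ℝ)) one_ne_zero
        rw [AddCircle.toCircle_zero]
        apply Circle.coe_injective
        rw [← fourier_apply, h1]
        rfl
      unfold pN at h2
      rw [← AddCircle.coe_zsmul, AddCircle.coe_eq_zero_iff] at h2
      obtain ⟨l, hl⟩ := h2
      refine ⟨l, ?_⟩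
      rw [zsmul_eq_mul, zsmul_eq_mul, mul_one, mul_one_div, eq_div_iff hN'] at hl
      have hl' : (m : ℝ) = ((N * l : ℤ) : ℝ) := by push_cast; linarith
      exact_mod_cast hl'
    have h1 := geom_sum_eq hne N
    rw [h1, hpow, sub_self, zero_div]

/-- the lift through `x ↦ N x` dominates the measure -/
lemma dominated {N : ℕ} (hN : N ≠ 0) {ν κ : Measure UnitAddCircle} [IsProbabilityMeasure ν]
    [IsProbabilityMeasure κ] (h : ∀ m : ℤ, hat κ m = if (N : ℤ) ∣ m then hat ν m else 0) :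
    ν ≤ (N : ℝ≥0∞) • κ := by
  have hfin : IsFiniteMeasure ((N : ℝ≥0∞) • κ) := Measure.smul_finite _ (by simp)
  have hm : ∀ k : ℕ, Measurable fun x : UnitAddCircle => x + k • pN N := fun k => by fun_prop
  have hfm : ∀ k : ℕ, IsFiniteMeasure (ν.map fun x : UnitAddCircle => x + k • pN N) := fun k =>
    Measure.isFiniteMeasure_map ν _
  have hhat : ∀ (k : ℕ) (m : ℤ), ∫ x, (fourier m x : ℂ)
      ∂(ν.map fun x : UnitAddCircle => x + k • pN N) = fourier m (k • pN N) * hat ν m := by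
    intro k m
    rw [integral_map (hm k).aemeasurable (fourier m).continuous.aestronglyMeasurable]
    simp only [f_add]
    rw [integral_mul_const, mul_comm]
    rfl
  have heq : (N : ℝ≥0∞) • κ = ∑ k ∈ range N, ν.map fun x : UnitAddCircle => x + k • pN N := by
    refine Pool.Agent.R202.ext_fourier fun m => ?_
    have hi : ∀ (ρ : Measure UnitAddCircle) [IsFiniteMeasure ρ],
        Integrable (fun x : UnitAddCircle => (fourier m x : ℂ)) ρ := fun ρ _ =>
      Integrable.of_bound (fourier m).continuous.aestronglyMeasurable 1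
        (Eventually.of_forall fun x => (norm_f _ x).le)
    rw [integral_smul_measure, integral_finsetSum_measure fun k _ => hi _]
    simp only [hhat]
    rw [← sum_mul, sum_roots hN]
    have h1 : ∫ x, (fourier m x : ℂ) ∂κ = if (N : ℤ) ∣ m then hat ν m else 0 := h m
    rw [h1]
    split_ifs
    · simp
    · simp
  rw [heq]
  obtain ⟨n, rfl⟩ := Nat.exists_eq_succ_of_ne_zero hN
  rw [Finset.sum_range_succ']
  have h0 : (ν.map fun x : UnitAddCircle => x + 0 • pN (n + 1)) = ν := by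
    simp
  have h0' : (ν.map fun x : UnitAddCircle => x + 0 • pN n.succ) = ν := h0
  rw [h0']
  exact Measure.le_add_left le_rfl

/-- mutually singular measures below a measure -/
lemma add_le_of_ms {X : Type*} [MeasurableSpace X] {μ ν M : Measure X} (h1 : μ ≤ M) (h2 : ν ≤ M)
    (h : μ ⟂ₘ ν) : μ + ν ≤ M := by
  obtain ⟨B, hB, hμB, hνB⟩ := h
  rw [Measure.le_iff]
  intro s hs
  have e1 : μ s ≤ μ (s \ B) := by
    rw [← measure_inter_add_sdiff s hB]
    have : μ (s ∩ B) = 0 := measure_mono_null Set.inter_subset_right hμB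
    rw [this, zero_add]
  have e2 : ν s ≤ ν (s ∩ B) := by
    rw [← measure_inter_add_sdiff s hB]
    have : ν (s \ B) = 0 := measure_mono_null (fun x hx => hx.2) hνB
    rw [this, add_zero]
  calc (μ + ν) s = μ s + ν s := rfl
    _ ≤ μ (s \ B) + ν (s ∩ B) := add_le_add e1 e2
    _ ≤ M (s \ B) + M (s ∩ B) := add_le_add (h1 _) (h2 _)
    _ = M s := by rw [add_comm, measure_inter_add_sdiff s hB]

lemma sum_le_of_ms {X ι : Type*} [MeasurableSpace X] (s : Finset ι) (ν : ι → Measure X)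
    {M : Measure X} (h1 : ∀ i ∈ s, ν i ≤ M) (h2 : ∀ i ∈ s, ∀ j ∈ s, i ≠ j → ν i ⟂ₘ ν j) :
    ∑ i ∈ s, ν i ≤ M := by
  classical
  induction s using Finset.induction_on with
  | empty =>
    rw [sum_empty]
    exact Measure.zero_le M
  | insert a s ha ih =>
    rw [sum_insert ha]
    refine add_le_of_ms (h1 a (mem_insert_self _ _)) (ih (fun i hi => h1 i (mem_insert_of_mem hi))
      fun i hi j hj => h2 i (mem_insert_of_mem hi) j (mem_insert_of_mem hj)) ?_
    have hms : ∀ t : Finset ι, (∀ i ∈ t, ν a ⟂ₘ ν i) → ν a ⟂ₘ ∑ i ∈ t, ν i := by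
      intro t
      induction t using Finset.induction_on with
      | empty => intro _; simp
      | insert b t hb ih' =>
        intro h
        rw [sum_insert hb]
        exact (h b (mem_insert_self _ _)).add_right (ih' fun i hi => h i (mem_insert_of_mem hi))
    exact hms s fun i hi => h2 a (mem_insert_self _ _) i (mem_insert_of_mem hi) fun e =>
      ha (e ▸ hi)

/-- **The residues of the numbers `2 ^ i 3 ^ j` modulo the divisors of the powers of `R`.** -/
theorem cls_ge {R : ℕ} (hR : Nat.Coprime R 6) : ∃ C : ℕ, 0 < C ∧ ∀ n k : ℕ, n ∣ R ^ k →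
    n ≤ C * cls n := by
  have hR0 : R ≠ 0 := by
    rintro rfl
    norm_num at hR
  have hp2 : ∀ p ∈ R.primeFactors, p.Prime ∧ p ≠ 2 := by
    intro p hp
    obtain ⟨hpp, hpR, -⟩ := Nat.mem_primeFactors.1 hp
    refine ⟨hpp, ?_⟩
    rintro rfl
    have := Nat.dvd_gcd hpR (by norm_num : 2 ∣ 6)
    rw [hR] at this
    omega
  set C : ℕ := ∏ p ∈ R.primeFactors, (2 ^ (p - 1) - 1) with hC
  have hfac : ∀ p ∈ R.primeFactors, 0 < 2 ^ (p - 1) - 1 := by
    intro p hp
    obtain ⟨hpp, hpn⟩ := hp2 p hp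
    have h3 : 2 ≤ p - 1 := by
      have := hpp.two_le
      omega
    have : 2 ^ 1 < 2 ^ (p - 1) := Nat.pow_lt_pow_right (by norm_num) (by omega)
    omega
  have hC0 : 0 < C := Finset.prod_pos hfac
  refine ⟨C, hC0, fun n k hnk => ?_⟩
  have hn0 : n ≠ 0 := by
    rintro rfl
    exact pow_ne_zero k hR0 (Nat.eq_zero_of_zero_dvd hnk)
  haveI : NeZero n := ⟨hn0⟩
  have hodd : Nat.Coprime 2 n := by
    have h1 : Nat.Coprime 2 R := by
      have := Nat.Coprime.coprime_dvd_right (by norm_num : 2 ∣ 6) hR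
      exact this.symm
    exact Nat.Coprime.coprime_dvd_right hnk (h1.pow_right k)
  set v : (ZMod n)ˣ := ZMod.unitOfCoprime 2 hodd with hv
  have hv2 : (v : ZMod n) = (2 : ℕ) := ZMod.coe_unitOfCoprime 2 hodd
  set d := orderOf v with hd
  have hd0 : 0 < d := orderOf_pos v
  -- the powers of 2 are different
  have hdcls : d ≤ cls n := by
    unfold cls
    have hsub : (fun i : ℕ => ((v ^ i : (ZMod n)ˣ) : ZMod n)) '' (Set.Iio d) ⊆
        Set.range fun p : ℕ × ℕ => ((2 ^ p.1 * 3 ^ p.2 : ℕ) : ZMod n) := by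
      rintro _ ⟨i, -, rfl⟩
      refine ⟨(i, 0), ?_⟩
      simp only [pow_zero, mul_one]
      rw [Units.val_pow_eq_pow_val, hv2]
      push_cast
      rfl
    have hinj : Set.InjOn (fun i : ℕ => ((v ^ i : (ZMod n)ˣ) : ZMod n)) (Set.Iio d) := by
      intro i hi j hj hij
      exact pow_injOn_Iio_orderOf hi hj (Units.ext hij)
    have h1 := Set.ncard_le_ncard hsub (Set.toFinite _)
    rw [Set.ncard_image_of_injOn hinj] at h1
    have h2 : (Set.Iio d).ncard = d := by
      rw [← Finset.coe_Iio, Set.ncard_coe_finset, Nat.card_Iio]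
    omega
  -- lifting the exponent
  have hndiv : n ∣ 2 ^ d - 1 := by
    have h1 : v ^ d = 1 := pow_orderOf_eq_one v
    have h2 : ((2 ^ d : ℕ) : ZMod n) = ((1 : ℕ) : ZMod n) := by
      have := congrArg (fun w : (ZMod n)ˣ => (w : ZMod n)) h1
      simp only [Units.val_pow_eq_pow_val, hv2, Units.val_one] at this
      push_cast
      push_cast at this
      exact this
    exact (Nat.modEq_iff_dvd' Nat.one_le_two_pow).1 ((ZMod.natCast_eq_natCast_iff _ _ _).1 h2.symm)
  have hkey : n ∣ C * d := by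
    rw [← Nat.factorization_le_iff_dvd hn0 (mul_ne_zero hC0.ne' hd0.ne')]
    intro p
    by_cases hp : p ∈ n.primeFactors
    · obtain ⟨hpp, hpn, -⟩ := Nat.mem_primeFactors.1 hp
      haveI : Fact p.Prime := ⟨hpp⟩
      have hpR : p ∈ R.primeFactors :=
        Nat.mem_primeFactors.2 ⟨hpp, hpp.dvd_of_dvd_pow (hpn.trans hnk), hR0⟩
      have hp2' := (hp2 p hpR).2
      have hpodd : Odd p := hpp.odd_of_ne_two hp2'
      have hcop2 : Nat.Coprime 2 p := by
        rw [Nat.coprime_primes Nat.prime_two hpp]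
        exact hp2'.symm
      have hferm : p ∣ 2 ^ (p - 1) - 1 := by
        have h1 := Nat.ModEq.pow_totient hcop2
        rw [Nat.totient_prime hpp] at h1
        exact (Nat.modEq_iff_dvd' Nat.one_le_two_pow).1 h1.symm
      have hlt : 1 < 2 ^ (p - 1) := by
        have := hfac p hpR
        omega
      have hnp : ¬ p ∣ 2 ^ (p - 1) := fun h => by
        have h1 := hpp.dvd_of_dvd_pow h
        have h2 := Nat.dvd_gcd h1 (dvd_refl p)
        rw [hcop2] at h2
        exact hpp.one_lt.ne' (Nat.dvd_one.1 h2)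
      have hlte := padicValNat.pow_sub_pow (p := p) hpodd hlt hferm hnp (n := d) hd0.ne'
      rw [one_pow] at hlte
      have hdvd : n ∣ (2 ^ (p - 1)) ^ d - 1 := by
        refine hndiv.trans ?_
        rw [← pow_mul, mul_comm, pow_mul]
        have := Nat.sub_dvd_pow_sub_pow (2 ^ d) 1 (p - 1)
        rwa [one_pow] at this
      have hne0 : (2 ^ (p - 1)) ^ d - 1 ≠ 0 := by
        have : 1 < (2 ^ (p - 1)) ^ d := Nat.one_lt_pow hd0.ne' hlt
        omega
      have h1 : n.factorization p ≤ ((2 ^ (p - 1)) ^ d - 1).factorization p :=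
        (Nat.factorization_le_iff_dvd hn0 hne0).2 hdvd p
      have h2 : (2 ^ (p - 1) - 1).factorization p ≤ C.factorization p :=
        (Nat.factorization_le_iff_dvd (hfac p hpR).ne' hC0.ne').2
          (Finset.dvd_prod_of_mem _ hpR) p
      rw [Nat.factorization_mul hC0.ne' hd0.ne', Finsupp.add_apply]
      rw [Nat.factorization_def _ hpp, Nat.factorization_def _ hpp] at h1
      rw [Nat.factorization_def (2 ^ (p - 1) - 1) hpp] at h2
      rw [Nat.factorization_def n hpp, Nat.factorization_def d hpp]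
      omega
    · rw [Finsupp.notMem_support_iff.1 (by rwa [Nat.support_factorization])]
      exact Nat.zero_le _
  calc n ≤ C * d := Nat.le_of_dvd (Nat.mul_pos hC0 hd0) hkey
    _ ≤ C * cls n := Nat.mul_le_mul_left _ hdcls

end Run7.h303.TR
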