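import Pool.Agent.Run7.h303.TR.Ineq
import Pool.Agent.Run7.h303.TR.Avg

/-!
The lifts of a trace through the subgroups of index `N`: the Bessel inequality.
-/

set_option autoImplicit false

open MeasureTheory Filter Topology Finset
open scoped ENNReal ComplexOrder

namespace Run7.h303.TR

open Pool.Agent.W763.Tr
open Pool.Agent.TH654.FC
open Pool.Agent.Y253.TR
open Pool.Agent.R202.TM (JointErg)
open Pool.Agent.R481.TraceBT (vanish)
open Pool.Agent.R481.TraceErg (erg_of_extreme)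
open Pool.Agent.N276.TT (pow_tau)
open Pool.Agent.R203.ID (hat norm_f f_add f_zero norm_hat_le ext_hat hat_map_nsmul inv_iff)

/-- the average of the translates of a measure by the multiples of `1 / N` -/
lemma exists_avg_trans {N : ℕ} (hN : N ≠ 0) (ν : Measure UnitAddCircle) [IsProbabilityMeasure ν] :
    ∃ κ : Measure UnitAddCircle, IsProbabilityMeasure κ ∧
      ∀ m : ℤ, hat κ m = if (N : ℤ) ∣ m then hat ν m else 0 := by
  have hm : ∀ k : ℕ, Measurable fun x : UnitAddCircle => x + k • pN N := fun k => by fun_prop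
  have hpm : ∀ k : ℕ, IsProbabilityMeasure (ν.map fun x : UnitAddCircle => x + k • pN N) :=
    fun k => Measure.isProbabilityMeasure_map (hm k).aemeasurable
  have hhat : ∀ (k : ℕ) (m : ℤ), ∫ x, (fourier m x : ℂ)
      ∂(ν.map fun x : UnitAddCircle => x + k • pN N) = fourier m (k • pN N) * hat ν m := by
    intro k m
    rw [integral_map (hm k).aemeasurable (fourier m).continuous.aestronglyMeasurable]
    simp only [f_add]
    rw [integral_mul_const, mul_comm]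
    rfl
  refine ⟨(N : ℝ≥0∞)⁻¹ • ∑ k ∈ range N, ν.map fun x : UnitAddCircle => x + k • pN N, ⟨?_⟩,
    fun m => ?_⟩
  · rw [Measure.smul_apply, Measure.finsetSum_apply, sum_congr rfl fun k _ => measure_univ,
      sum_const, card_range, nsmul_eq_mul, mul_one, smul_eq_mul,
      ENNReal.inv_mul_cancel (by exact_mod_cast hN) (ENNReal.natCast_ne_top N)]
  · have hi : ∀ (ρ : Measure UnitAddCircle) [IsFiniteMeasure ρ],
        Integrable (fun x : UnitAddCircle => (fourier m x : ℂ)) ρ := fun ρ _ =>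
      Integrable.of_bound (fourier m).continuous.aestronglyMeasurable 1
        (Eventually.of_forall fun x => (norm_f _ x).le)
    unfold hat
    rw [integral_smul_measure, integral_finsetSum_measure fun k _ => hi _]
    simp only [hhat]
    rw [← sum_mul, sum_roots hN, ENNReal.toReal_inv, ENNReal.toReal_natCast]
    have hN' : (N : ℂ) ≠ 0 := by exact_mod_cast hN
    split_ifs
    · rw [Complex.real_smul]
      push_cast
      rw [← mul_assoc, inv_mul_cancel₀ hN', one_mul]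
      rfl
    · rw [zero_mul, smul_zero]

section

variable {s2 s3 t : Equiv.Perm ℚ} (hs2 : ∀ x, s2 x = 2 * x) (hs3 : ∀ x, s3 x = 3 * x)
  (ht : ∀ x, t x = x + 1) {G : Subgroup (Equiv.Perm ℚ)} (hG : G = Subgroup.closure {s2, s3, t})

include hs2 hs3 ht hG

/-- the measure of a trace -/
lemma exists_measure {u : G} (hu : ∀ x : ℚ, (u : Equiv.Perm ℚ) x = x + 1) {ψ : G → ℂ}
    (hψ : ψ ∈ TS G) : ∃ ν : Measure UnitAddCircle, IsProbabilityMeasure ν ∧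
      MeasurePreserving (fun x : UnitAddCircle => 2 • x) ν ν ∧
      MeasurePreserving (fun x : UnitAddCircle => 3 • x) ν ν ∧ (∀ m : ℤ, hat ν m = ψ (u ^ m)) ∧
      (ψ ∈ (TS G).extremePoints ℝ → ¬ FD ψ →
        JointErg (fun x : UnitAddCircle => 2 • x) (fun x : UnitAddCircle => 3 • x) ν) := by
  obtain ⟨c1, c2, c3⟩ := hψ
  obtain ⟨τ, S6, μ, D⟩ := data_of hs2 hs3 ht hG c1 c2 c3
  refine ⟨μ, D.prob, D.mp2, D.mp3, fun m => ?_, fun h1 h2 =>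
    erg_of_extreme D (atomless D h1 h2) h1⟩
  rw [pow_tau D.hτ hu]
  exact D.hμ m

/-- extreme traces which are not conditionally finite-dimensional are determined by their values at
the powers of `u` -/
lemma eq_of_values {u : G} (hu : ∀ x : ℚ, (u : Equiv.Perm ℚ) x = x + 1) {ψ ψ' : G → ℂ}
    (h : ψ ∈ (TS G).extremePoints ℝ) (hf : ¬ FD ψ) (h' : ψ' ∈ (TS G).extremePoints ℝ)
    (hf' : ¬ FD ψ') (he : ∀ m : ℤ, ψ (u ^ m) = ψ' (u ^ m)) : ψ = ψ' := by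
  obtain ⟨c1, c2, c3⟩ := h.1
  obtain ⟨τ, S6, μ, D⟩ := data_of hs2 hs3 ht hG c1 c2 c3
  obtain ⟨d1, d2, d3⟩ := h'.1
  obtain ⟨τ', S', μ', D'⟩ := data_of hs2 hs3 ht hG d1 d2 d3
  funext g
  by_cases hg : ∃ r : ℚ, ∀ x : ℚ, (g : Equiv.Perm ℚ) x = x + r
  · obtain ⟨r, hg⟩ := hg
    obtain ⟨n, k, hr⟩ := D.six hg
    rw [hr] at hg
    rw [phi_trans D.hτ D.hcl S6 D.hS6 g n k hg, phi_trans D'.hτ D'.hcl S' D'.hS6 g n k hg,
      ← pow_tau D.hτ hu, ← pow_tau D'.hτ hu, he]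
  · rw [vanish D (atomless D h hf) g hg, vanish D' (atomless D' h' hf') g hg]

/-- **Parts of a trace which vanishes off the powers of `u ^ N`.** -/
theorem mass {u : G} (hu : ∀ x : ℚ, (u : Equiv.Perm ℚ) x = x + 1) {N : ℕ} (hN : N ≠ 0)
    {ι : Type*} (I : Finset ι) (s : ι → ℝ) (ψ : ι → G → ℂ) (hψ : ∀ i ∈ I, ψ i ∈ TS G)
    (hs0 : ∀ i ∈ I, 0 ≤ s i) (hs1 : ∑ i ∈ I, s i = 1)
    (h : ∀ m : ℤ, ¬ (N : ℤ) ∣ m → ∑ i ∈ I, (s i : ℂ) * ψ i (u ^ m) = 0)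
    {m : ℕ} (hm : 0 < m) : ∑ i ∈ I, s i * ‖ψ i (u ^ m)‖ ^ 2 ≤ 1 / cls (N / N.gcd m) := by
  classical
  have hex : ∀ i : ι, ∃ ν : Measure UnitAddCircle, i ∈ I → IsProbabilityMeasure ν ∧
      MeasurePreserving (fun x : UnitAddCircle => 2 • x) ν ν ∧
      MeasurePreserving (fun x : UnitAddCircle => 3 • x) ν ν ∧
      (∀ m : ℤ, hat ν m = ψ i (u ^ m)) := by
    intro i
    by_cases hi : i ∈ I
    · obtain ⟨ν, e1, e2, e3, e4, -⟩ := exists_measure hs2 hs3 ht hG hu (hψ i hi)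
      exact ⟨ν, fun _ => ⟨e1, e2, e3, e4⟩⟩
    · exact ⟨0, fun h' => absurd h' hi⟩
  choose ν hν using hex
  have hN' : N / N.gcd m ≠ 0 := by
    have := Nat.div_pos (Nat.le_of_dvd (Nat.pos_of_ne_zero hN) (Nat.gcd_dvd_left N m))
      (Nat.gcd_pos_of_pos_right _ hm)
    omega
  obtain ⟨U, hUc, hU23, hUinj⟩ := exists_reps hN'
  have hUne : U.Nonempty := by
    rw [← Finset.card_pos, hUc]
    exact cls_pos hN'
  -- the combination
  set κ : Measure UnitAddCircle := ∑ i ∈ I, ENNReal.ofReal (s i) • ν i with hκ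
  have hfin : ∀ i ∈ I, IsFiniteMeasure (ENNReal.ofReal (s i) • ν i) := by
    intro i hi
    have := (hν i hi).1
    exact Measure.smul_finite _ ENNReal.ofReal_ne_top
  have huniv' : κ Set.univ = 1 := by
    rw [hκ, Measure.finsetSum_apply]
    have e : ∀ i ∈ I, (ENNReal.ofReal (s i) • ν i) Set.univ = ENNReal.ofReal (s i) := by
      intro i hi
      have := (hν i hi).1
      rw [Measure.smul_apply, measure_univ, smul_eq_mul, mul_one]
    rw [sum_congr rfl e, ← ENNReal.ofReal_sum_of_nonneg hs0, hs1, ENNReal.ofReal_one]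
  have hκp : IsProbabilityMeasure κ := ⟨huniv'⟩
  have hint : ∀ {E : Type} [NormedAddCommGroup E] [NormedSpace ℝ E] (f : UnitAddCircle → E),
      Continuous f → (∀ x, ‖f x‖ ≤ 1) → ∫ x, f x ∂κ = ∑ i ∈ I, s i • ∫ x, f x ∂(ν i) := by
    intro E _ _ f hf hb
    rw [hκ, integral_finsetSum_measure]
    · refine sum_congr rfl fun i hi => ?_
      rw [integral_smul_measure, ENNReal.toReal_ofReal (hs0 i hi)]
    · intro i hi
      have := hfin i hi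
      exact Integrable.of_bound hf.aestronglyMeasurable 1 (Eventually.of_forall hb)
  have hκh : ∀ m : ℤ, hat κ m = ∑ i ∈ I, (s i : ℂ) * ψ i (u ^ m) := by
    intro m
    have h1 := hint (fun x : UnitAddCircle => (fourier m x : ℂ)) (fourier m).continuous
      (fun x => (norm_f _ x).le)
    have h2 : hat κ m = ∑ i ∈ I, s i • ∫ x, (fourier m x : ℂ) ∂(ν i) := h1
    rw [h2]
    refine sum_congr rfl fun i hi => ?_
    have h3 : ∫ x, (fourier m x : ℂ) ∂(ν i) = ψ i (u ^ m) := (hν i hi).2.2.2 m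
    rw [h3, Complex.real_smul]
  have hκ0 : ∀ k : ℤ, ¬ (N : ℤ) ∣ k → hat κ k = 0 := by
    intro k hk
    rw [hκh, h k hk]
  have h1 := avg_sq_lift hN hm hUne hUinj hκ0
  have huniv : κ.real Set.univ = 1 := by
    rw [measureReal_def, huniv', ENNReal.toReal_one]
  rw [huniv, hUc] at h1
  have h2 := hint (fun x : UnitAddCircle => ‖avg U (m : ℤ) x‖ ^ 2) ((avg_cont U m).norm.pow 2)
    (fun x => by
      rw [Real.norm_of_nonneg (by positivity)]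
      exact pow_le_one₀ (norm_nonneg _) (avg_norm U m x))
  rw [← h1, h2]
  refine sum_le_sum fun i hi => ?_
  obtain ⟨e1, e2, e3, e4⟩ := hν i hi
  have h6 := jensen (ν := ν i) (avg_cont U m) (avg_norm U m)
  rw [avg_int hUne hU23 e2 e3, e4, zpow_natCast] at h6
  rw [smul_eq_mul]
  exact mul_le_mul_of_nonneg_left h6 (hs0 i hi)

/-- the measures of the roots -/
lemma roots_measures {u : G} (hu : ∀ x : ℚ, (u : Equiv.Perm ℚ) x = x + 1) {N : ℕ} (hN : N ≠ 0)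
    (φ : G → ℂ) (S : Finset (G → ℂ)) (hS : ∀ ψ ∈ S, ψ ∈ (TS G).extremePoints ℝ ∧ ¬ FD ψ ∧
      ∀ m : ℤ, ψ (u ^ ((N : ℤ) * m)) = φ (u ^ m)) (hne : S.Nonempty) :
    ∃ (ν : (G → ℂ) → Measure UnitAddCircle) (κ : Measure UnitAddCircle),
      (∀ ψ ∈ S, IsProbabilityMeasure (ν ψ) ∧
        MeasurePreserving (fun x : UnitAddCircle => 2 • x) (ν ψ) (ν ψ) ∧
        MeasurePreserving (fun x : UnitAddCircle => 3 • x) (ν ψ) (ν ψ) ∧
        ∀ m : ℤ, hat (ν ψ) m = ψ (u ^ m)) ∧ IsProbabilityMeasure κ ∧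
      (∀ k : ℤ, ¬ (N : ℤ) ∣ k → hat κ k = 0) ∧ ∑ ψ ∈ S, ν ψ ≤ (N : ℝ≥0∞) • κ := by
  classical
  obtain ⟨ψ₀, hψ₀⟩ := hne
  have hex : ∀ ψ : G → ℂ, ∃ ν : Measure UnitAddCircle, ψ ∈ S → IsProbabilityMeasure ν ∧
      MeasurePreserving (fun x : UnitAddCircle => 2 • x) ν ν ∧
      MeasurePreserving (fun x : UnitAddCircle => 3 • x) ν ν ∧ (∀ m : ℤ, hat ν m = ψ (u ^ m)) ∧
      JointErg (fun x : UnitAddCircle => 2 • x) (fun x : UnitAddCircle => 3 • x) ν := by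
    intro ψ
    by_cases h : ψ ∈ S
    · obtain ⟨h1, h2, h3⟩ := hS ψ h
      obtain ⟨ν, e1, e2, e3, e4, e5⟩ := exists_measure hs2 hs3 ht hG hu h1.1
      exact ⟨ν, fun _ => ⟨e1, e2, e3, e4, e5 h1 h2⟩⟩
    · exact ⟨0, fun h' => absurd h' h⟩
  choose ν hν using hex
  obtain ⟨p0, -, -, hu0, -⟩ := hν ψ₀ hψ₀
  have hNz : (N : ℤ) ≠ 0 := by exact_mod_cast hN
  obtain ⟨κ, hκp, hκ⟩ : ∃ κ : Measure UnitAddCircle, IsProbabilityMeasure κ ∧
      ∀ k : ℤ, hat κ k = if (N : ℤ) ∣ k then φ (u ^ (k / (N : ℤ))) else 0 := by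
    obtain ⟨κ, h1, h2⟩ := exists_avg_trans hN (ν ψ₀)
    refine ⟨κ, h1, fun k => ?_⟩
    rw [h2]
    split_ifs with hd
    · obtain ⟨l, rfl⟩ := hd
      rw [Int.mul_ediv_cancel_left _ hNz, hu0, (hS ψ₀ hψ₀).2.2]
    · rfl
  have hdom : ∀ ψ ∈ S, ν ψ ≤ (N : ℝ≥0∞) • κ := by
    intro ψ hψ
    obtain ⟨e1, e2, e3, e4, e5⟩ := hν ψ hψ
    refine dominated hN fun k => ?_
    rw [hκ]
    split_ifs with hd
    · obtain ⟨l, rfl⟩ := hd
      rw [Int.mul_ediv_cancel_left _ hNz, e4, (hS ψ hψ).2.2]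
    · rfl
  have hms : ∀ ψ ∈ S, ∀ ψ' ∈ S, ψ ≠ ψ' → ν ψ ⟂ₘ ν ψ' := by
    intro ψ hψ ψ' hψ' hne
    obtain ⟨e1, e2, e3, e4, e5⟩ := hν ψ hψ
    obtain ⟨f1, f2, f3, f4, f5⟩ := hν ψ' hψ'
    rcases eq_or_ms f5 e5 f2 f3 (comm_smul 2 3) e2 e3 with h | h
    · exfalso
      apply hne
      refine eq_of_values hs2 hs3 ht hG hu (hS ψ hψ).1 (hS ψ hψ).2.1 (hS ψ' hψ').1 (hS ψ' hψ').2.1
        fun m => ?_
      rw [← e4, ← f4, h]
    · exact h
  exact ⟨ν, κ, fun ψ hψ => ⟨(hν ψ hψ).1, (hν ψ hψ).2.1, (hν ψ hψ).2.2.1, (hν ψ hψ).2.2.2.1⟩, hκp,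
    fun k hk => by rw [hκ, if_neg hk], sum_le_of_ms S ν hdom hms⟩

/-- **The number of the roots.** -/
theorem card_roots {u : G} (hu : ∀ x : ℚ, (u : Equiv.Perm ℚ) x = x + 1) {N : ℕ} (hN : N ≠ 0)
    (φ : G → ℂ) (S : Finset (G → ℂ)) (hS : ∀ ψ ∈ S, ψ ∈ (TS G).extremePoints ℝ ∧ ¬ FD ψ ∧
      ∀ m : ℤ, ψ (u ^ ((N : ℤ) * m)) = φ (u ^ m)) : S.card ≤ N := by
  rcases S.eq_empty_or_nonempty with h0 | hne
  · rw [h0, card_empty]
    exact Nat.zero_le _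
  obtain ⟨ν, κ, hν, hκp, -, hle⟩ := roots_measures hs2 hs3 ht hG hu hN φ S hS hne
  have h1 := hle Set.univ
  have h2 : (∑ ψ ∈ S, ν ψ) Set.univ = S.card := by
    rw [Measure.finsetSum_apply, sum_congr rfl fun ψ hψ => (hν ψ hψ).1.measure_univ, sum_const,
      nsmul_eq_mul, mul_one]
  rw [h2, Measure.smul_apply, measure_univ, smul_eq_mul, mul_one] at h1
  exact_mod_cast h1

/-- **Bessel's inequality for the roots.** -/
theorem bessel {u : G} (hu : ∀ x : ℚ, (u : Equiv.Perm ℚ) x = x + 1) {N : ℕ} (hN : N ≠ 0)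
    (φ : G → ℂ) (S : Finset (G → ℂ)) (hS : ∀ ψ ∈ S, ψ ∈ (TS G).extremePoints ℝ ∧ ¬ FD ψ ∧
      ∀ m : ℤ, ψ (u ^ ((N : ℤ) * m)) = φ (u ^ m)) {m : ℕ} (hm : 0 < m) :
    ∑ ψ ∈ S, ‖ψ (u ^ m)‖ ^ 2 ≤ N / cls (N / N.gcd m) := by
  classical
  have hN' : N / N.gcd m ≠ 0 := by
    have := Nat.div_pos (Nat.le_of_dvd (Nat.pos_of_ne_zero hN) (Nat.gcd_dvd_left N m))
      (Nat.gcd_pos_of_pos_right _ hm)
    omega
  obtain ⟨U, hUc, hU23, hUinj⟩ := exists_reps hN'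
  have hUne : U.Nonempty := by
    rw [← Finset.card_pos, hUc]
    exact cls_pos hN'
  rcases S.eq_empty_or_nonempty with h0 | hne
  · rw [h0, sum_empty]
    positivity
  obtain ⟨ν, κ, hν, hκp, hκ0, hle⟩ := roots_measures hs2 hs3 ht hG hu hN φ S hS hne
  have hsq : ∀ (ρ : Measure UnitAddCircle) [IsFiniteMeasure ρ],
      Integrable (fun x : UnitAddCircle => ‖avg U (m : ℤ) x‖ ^ 2) ρ := fun ρ _ =>
    Integrable.of_bound ((avg_cont U m).norm.pow 2).aestronglyMeasurable 1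
      (Eventually.of_forall fun x => by
        rw [Real.norm_of_nonneg (by positivity)]
        exact pow_le_one₀ (norm_nonneg _) (avg_norm U m x))
  have hfN : IsFiniteMeasure ((N : ℝ≥0∞) • κ) := Measure.smul_finite _ (by simp)
  have h1 : ∑ ψ ∈ S, ∫ x, ‖avg U (m : ℤ) x‖ ^ 2 ∂(ν ψ) ≤
      ∫ x, ‖avg U (m : ℤ) x‖ ^ 2 ∂((N : ℝ≥0∞) • κ) := by
    rw [← integral_finsetSum_measure]
    · exact integral_mono_measure hle (Eventually.of_forall fun x => by positivity) (hsq _)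
    · intro ψ hψ
      have := (hν ψ hψ).1
      exact hsq _
  have h2 : ∀ ψ ∈ S, ‖ψ (u ^ m)‖ ^ 2 ≤ ∫ x, ‖avg U (m : ℤ) x‖ ^ 2 ∂(ν ψ) := by
    intro ψ hψ
    obtain ⟨e1, e2, e3, e4⟩ := hν ψ hψ
    have h6 := jensen (ν := ν ψ) (avg_cont U m) (avg_norm U m)
    rwa [avg_int hUne hU23 e2 e3, e4, zpow_natCast] at h6
  have h3 := avg_sq_lift hN hm hUne hUinj (ν := κ) hκ0
  rw [integral_smul_measure, h3, hUc] at h1
  refine (sum_le_sum h2).trans (h1.trans (le_of_eq ?_))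
  simp [measureReal_def]
  ring

/-- **Small roots.** -/
theorem small_root {u : G} (hu : ∀ x : ℚ, (u : Equiv.Perm ℚ) x = x + 1) {N : ℕ} (hN : N ≠ 0)
    (h2N : ¬ 2 ∣ N) (h3N : ¬ 3 ∣ N) {φ : G → ℂ} (hφ : φ ∈ (TS G).extremePoints ℝ) (hnf : ¬ FD φ)
    (F : Finset ℕ) (hF : ∀ m ∈ F, 0 < m) (w : ℕ → ℝ) (hw : ∀ m ∈ F, 0 ≤ w m) :
    ∃ ψ ∈ (TS G).extremePoints ℝ, ¬ FD ψ ∧ (∀ m : ℤ, ψ (u ^ ((N : ℤ) * m)) = φ (u ^ m)) ∧
      ∑ m ∈ F, w m * ‖ψ (u ^ m)‖ ^ 2 ≤ ∑ m ∈ F, w m * (1 / cls (N / N.gcd m)) := by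
  classical
  obtain ⟨μ, hμ, μ2, μ3, hμu, -⟩ := exists_measure hs2 hs3 ht hG hu hφ.1
  obtain ⟨ρ, hρ, ρ2, ρ3, hρ1, hρ0⟩ := exists_lift h2N h3N hN μ2 μ3
  obtain ⟨ψ₀, e1, e2, e3, e4, e5⟩ := trace_of_measure hs2 hs3 ht hG ρ ρ2 ρ3
  obtain ⟨c1, c2, c3⟩ := hφ.1
  obtain ⟨τ, S6, μ', D⟩ := data_of hs2 hs3 ht hG c1 c2 c3
  have hψ₀ : ∀ m : ℤ, ψ₀ (u ^ m) = hat ρ m := by
    intro m
    refine e4 _ m 0 fun x => ?_
    rw [pow_tau D.hτ hu, D.hτ]
    simp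
  have h0L : ∀ m : ℤ, ψ₀ (u ^ ((N : ℤ) * m)) = φ (u ^ m) := by
    intro m
    rw [hψ₀, ← hμu]
    exact hρ1 m
  have hreps : ∀ m : ℕ, ∃ U : Finset ℕ, m ∈ F → (U.card = cls (N / N.gcd m) ∧ U.Nonempty ∧
      (∀ a ∈ U, ∃ i j : ℕ, a = 2 ^ i * 3 ^ j) ∧
      ∀ a ∈ U, ∀ b ∈ U, ((N / N.gcd m : ℕ) : ℤ) ∣ (a : ℤ) - b → a = b) := by
    intro m
    by_cases hm : m ∈ F
    · have hN' : N / N.gcd m ≠ 0 := by
        have := Nat.div_pos (Nat.le_of_dvd (Nat.pos_of_ne_zero hN) (Nat.gcd_dvd_left N m))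
          (Nat.gcd_pos_of_pos_right _ (hF m hm))
        omega
      obtain ⟨U, hUc, hU23, hUinj⟩ := exists_reps hN'
      refine ⟨U, fun _ => ⟨hUc, ?_, hU23, hUinj⟩⟩
      rw [← Finset.card_pos, hUc]
      exact cls_pos hN'
    · exact ⟨∅, fun h' => absurd h' hm⟩
  choose U hU using hreps
  set Λ : (G → ℂ) → ℝ := fun ψ => ∑ m ∈ F, w m *
    ((1 / (U m).card : ℂ) ^ 2 * ∑ a ∈ U m, ∑ b ∈ U m, ψ (u ^ ((m : ℤ) * (a - b)))).re with hΛ
  have hΛint : ∀ (ψ : G → ℂ) (ν : Measure UnitAddCircle) [IsProbabilityMeasure ν],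
      (∀ m : ℤ, hat ν m = ψ (u ^ m)) →
      Λ ψ = ∑ m ∈ F, w m * ∫ x, ‖avg (U m) (m : ℤ) x‖ ^ 2 ∂ν := by
    intro ψ ν _ hνψ
    rw [hΛ]
    refine sum_congr rfl fun m _ => ?_
    have h1 := avg_sq_int (U m) (m : ℤ) ν
    simp only [hνψ] at h1
    rw [← h1, Complex.ofReal_re]
  obtain ⟨ψ, hψ, hψnf, hψL, hψΛ⟩ := face hs2 hs3 ht hG hφ hnf hu ⟨e1, e2, e3⟩ h0L
    (Λ := Λ)
    (continuous_finsetSum _ fun m _ => continuous_const.mul (Complex.continuous_re.comp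
      (continuous_const.mul (continuous_finsetSum _ fun a _ => continuous_finsetSum _ fun b _ =>
        continuous_apply _))))
    (fun φ ψ => by
      simp only [hΛ, Pi.add_apply, sum_add_distrib, mul_add, Complex.add_re])
    (fun r φ => by
      simp only [hΛ, Pi.smul_apply, Complex.real_smul, ← mul_sum]
      rw [mul_sum]
      refine sum_congr rfl fun m _ => ?_
      rw [mul_left_comm ((1 / (U m).card : ℂ) ^ 2), Complex.re_ofReal_mul]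
      ring)
  refine ⟨ψ, hψ, hψnf, hψL, ?_⟩
  obtain ⟨ν, hν, ν2, ν3, hνu, -⟩ := exists_measure hs2 hs3 ht hG hu hψ.1
  have h1 : Λ ψ₀ = ∑ m ∈ F, w m * (1 / cls (N / N.gcd m)) := by
    rw [hΛint ψ₀ ρ fun m => (hψ₀ m).symm]
    refine sum_congr rfl fun m hm => ?_
    obtain ⟨u1, u2, u3, u4⟩ := hU m hm
    rw [avg_sq_lift hN (hF m hm) u2 u4 (ν := ρ) hρ0, u1]
    simp
  have h2 : ∑ m ∈ F, w m * ‖ψ (u ^ m)‖ ^ 2 ≤ Λ ψ := by
    rw [hΛint ψ ν hνu]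
    refine sum_le_sum fun m hm => ?_
    obtain ⟨u1, u2, u3, u4⟩ := hU m hm
    have h6 := jensen (ν := ν) (avg_cont (U m) m) (avg_norm (U m) m)
    rw [avg_int u2 u3 ν2 ν3, hνu, zpow_natCast] at h6
    exact mul_le_mul_of_nonneg_left h6 (hw m hm)
  rw [← h1]
  exact h2.trans hψΛ

end

end Run7.h303.TR
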