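import Pool.Agent.R202.TM
import Mathlib.Dynamics.Ergodic.RadonNikodym
import Mathlib.Dynamics.Ergodic.Function

/-!
Invariant probability measures of two commuting maps which are ergodic for their joint action:
uniqueness and mutual singularity.
-/

set_option autoImplicit false

open MeasureTheory Filter Set
open scoped ENNReal

namespace Run7.h303.TR

open Pool.Agent.R202.TM (JointErg)

variable {X : Type*} [MeasurableSpace X] {S T : X → X} {μ ν : Measure X}

/-- an almost invariant function is constant -/
lemma const_of_erg [IsProbabilityMeasure μ] (h : JointErg S T μ) (hS : MeasurePreserving S μ μ)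
    (hT : MeasurePreserving T μ μ) (hST : ∀ x, S (T x) = T (S x)) {g : X → ℝ≥0∞}
    (hg : Measurable g) (gS : g ∘ S =ᵐ[μ] g) (gT : g ∘ T =ᵐ[μ] g) :
    ∃ c, g =ᵐ[μ] fun _ => c := by
  refine exists_eventuallyEq_const_of_forall_separating MeasurableSet fun U hU => ?_
  have hA : MeasurableSet (g ⁻¹' U) := hg hU
  have key : ∀ R : X → X, g ∘ R =ᵐ[μ] g → R ⁻¹' (g ⁻¹' U) =ᵐ[μ] g ⁻¹' U := by
    intro R hR
    refine (hR.mono fun x hx => ?_).set_eq
    have hx' : g (R x) = g x := hx
    simp only [mem_preimage, hx']
  rcases h.ae hS hT hST hA (key S gS) (key T gT) with h0 | h0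
  · right
    rw [ae_iff]
    have e : {a | ¬ g a ∉ U} = g ⁻¹' U := by
      ext a
      simp
    rw [e]
    exact h0
  · left
    have h1 := (prob_compl_eq_zero_iff (μ := μ) hA).2 h0
    rw [ae_iff]
    exact h1

/-- uniqueness below an ergodic measure -/
lemma eq_of_ac [IsProbabilityMeasure μ] [IsProbabilityMeasure ν] (h : JointErg S T μ)
    (hS : MeasurePreserving S μ μ) (hT : MeasurePreserving T μ μ) (hST : ∀ x, S (T x) = T (S x))
    (νS : MeasurePreserving S ν ν) (νT : MeasurePreserving T ν ν) (hac : ν ≪ μ) : ν = μ := by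
  obtain ⟨c, hc⟩ := const_of_erg h hS hT hST (Measure.measurable_rnDeriv ν μ)
    (νS.rnDeriv_comp_aeEq hS) (νT.rnDeriv_comp_aeEq hT)
  have e : ν = c • μ := by
    ext s hs
    calc ν s = ∫⁻ a in s, ν.rnDeriv μ a ∂μ := (Measure.setLIntegral_rnDeriv hac _).symm
      _ = ∫⁻ _ in s, c ∂μ := lintegral_congr_ae (hc.filter_mono (ae_mono Measure.restrict_le_self))
      _ = (c • μ) s := by simp
  have h1 : c = 1 := by
    have h2 := congrArg (fun m : Measure X => m univ) e
    simpa using h2.symm
  rw [e, h1, one_smul]

/-- two ergodic invariant measures are equal or mutually singular -/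
lemma eq_or_ms [IsProbabilityMeasure μ] [IsProbabilityMeasure ν] (h : JointErg S T μ)
    (h' : JointErg S T ν) (hS : MeasurePreserving S μ μ) (hT : MeasurePreserving T μ μ)
    (hST : ∀ x, S (T x) = T (S x)) (νS : MeasurePreserving S ν ν)
    (νT : MeasurePreserving T ν ν) : ν = μ ∨ ν ⟂ₘ μ := by
  obtain ⟨c, hc⟩ := const_of_erg h hS hT hST (Measure.measurable_rnDeriv ν μ)
    (νS.rnDeriv_comp_aeEq hS) (νT.rnDeriv_comp_aeEq hT)
  by_cases hc0 : c = 0
  · right
    refine (Measure.rnDeriv_eq_zero ν μ).1 (hc.trans ?_)
    rw [hc0]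
    exact EventuallyEq.rfl
  · left
    have hle : c • μ ≤ ν := by
      have h1 : μ.withDensity (ν.rnDeriv μ) ≤ ν := Measure.withDensity_rnDeriv_le ν μ
      rwa [withDensity_congr_ae hc, withDensity_const] at h1
    have hac : μ ≪ ν :=
      (Measure.absolutelyContinuous_smul hc0).trans (Measure.absolutelyContinuous_of_le hle)
    exact (eq_of_ac h' νS νT hST hS hT hac).symm

/-- the multiples of `x` -/
lemma comm_smul (a b : ℕ) (x : UnitAddCircle) : a • (b • x) = b • (a • x) := by
  rw [smul_smul, smul_smul, mul_comm]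

/-- ergodicity passes to the image under `x ↦ k x` -/
lemma erg_map {μ : Measure UnitAddCircle} {a b : ℕ}
    (h : JointErg (fun x : UnitAddCircle => a • x) (fun x : UnitAddCircle => b • x) μ) (k : ℕ) :
    JointErg (fun x : UnitAddCircle => a • x) (fun x : UnitAddCircle => b • x)
      (μ.map fun x : UnitAddCircle => k • x) := by
  intro E hE h1 h2
  have hk : Measurable fun x : UnitAddCircle => k • x := by fun_prop
  rw [Measure.map_apply hk hE]
  refine h _ (hk hE) ?_ ?_
  · ext x
    constructor
    · intro hx
      have hx' : k • (a • x) ∈ E := hx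
      rw [comm_smul] at hx'
      have : k • x ∈ (fun x : UnitAddCircle => a • x) ⁻¹' E := hx'
      rw [h1] at this
      exact this
    · intro hx
      have hx' : k • x ∈ (fun x : UnitAddCircle => a • x) ⁻¹' E := by rw [h1]; exact hx
      show k • (a • x) ∈ E
      rw [comm_smul]
      exact hx'
  · ext x
    constructor
    · intro hx
      have hx' : k • (b • x) ∈ E := hx
      rw [comm_smul] at hx'
      have : k • x ∈ (fun x : UnitAddCircle => b • x) ⁻¹' E := hx'
      rw [h2] at this
      exact this
    · intro hx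
      have hx' : k • x ∈ (fun x : UnitAddCircle => b • x) ⁻¹' E := by rw [h2]; exact hx
      show k • (b • x) ∈ E
      rw [comm_smul]
      exact hx'

/-- invariance passes to the image under `x ↦ k x` -/
lemma mp_map {μ : Measure UnitAddCircle} {a : ℕ}
    (h : MeasurePreserving (fun x : UnitAddCircle => a • x) μ μ) (k : ℕ) :
    MeasurePreserving (fun x : UnitAddCircle => a • x) (μ.map fun x : UnitAddCircle => k • x)
      (μ.map fun x : UnitAddCircle => k • x) := by
  have hk : Measurable fun x : UnitAddCircle => k • x := by fun_prop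
  have ha : Measurable fun x : UnitAddCircle => a • x := by fun_prop
  refine ⟨ha, ?_⟩
  rw [Measure.map_map ha hk]
  have e : ((fun x : UnitAddCircle => a • x) ∘ fun x : UnitAddCircle => k • x) =
      (fun x : UnitAddCircle => k • x) ∘ fun x : UnitAddCircle => a • x := by
    funext x
    exact comm_smul a k x
  rw [e, ← Measure.map_map hk ha, h.map_eq]

/-- images of atomless measures are atomless -/
lemma atomless_map {μ : Measure UnitAddCircle} (h : ∀ x, μ {x} = 0) {k : ℕ} (hk : 1 ≤ k)
    (x : UnitAddCircle) : (μ.map fun x : UnitAddCircle => k • x) {x} = 0 := by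
  have hm : Measurable fun x : UnitAddCircle => k • x := by fun_prop
  rw [Measure.map_apply hm (measurableSet_singleton x)]
  have : NullSingletonClass μ := ⟨h⟩
  rcases ((fun x : UnitAddCircle => k • x) ⁻¹' {x}).eq_empty_or_nonempty with h0 | ⟨w0, hw0⟩
  · rw [h0, measure_empty]
  · have hfin : {x : UnitAddCircle | k • x = 0}.Finite :=
      AddCircle.finite_torsion (p := (1 : ℝ)) (by omega : 0 < k)
    have hsub : ((fun x : UnitAddCircle => k • x) ⁻¹' {x}) ⊆
        (fun v => w0 + v) '' {x : UnitAddCircle | k • x = 0} := by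
      intro w hw
      refine ⟨w - w0, ?_, by simp⟩
      have e1 : k • w0 = x := hw0
      have e2 : k • w = x := hw
      show k • (w - w0) = 0
      rw [smul_sub, e1, e2, sub_self]
    exact ((hfin.image _).subset hsub).measure_zero μ

end Run7.h303.TR
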