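import Pool.Agent.Run7.h303.TR.Erg
import Pool.Agent.Y253.TR.Basic
import Pool.Agent.R481.TraceErg
import Pool.Agent.N276.TT.Trace

/-!
Extreme traces with atomless measures: ergodic atomless measures give extreme traces, and the lifts
of an extreme trace form a face of the compact convex set of the traces.
-/

set_option autoImplicit false

open MeasureTheory Filter Topology Set
open scoped ENNReal ComplexOrder

namespace Run7.h303.TR

open Pool.Agent.W763.Tr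
open Pool.Agent.TH654.FC
open Pool.Agent.Y253.TR
open Pool.Agent.R202.TM (JointErg)
open Pool.Agent.TH463.UQ (finite_or_atomless)
open Pool.Agent.R481.TraceBT (vanish)
open Pool.Agent.N276.TT (ae_one pow_tau)

/-- points where a character is one -/
lemma smul_eq_zero_of_one {m : ℤ} {x : UnitAddCircle} (h : (fourier m x : ℂ) = 1) : m • x = 0 := by
  apply AddCircle.injective_toCircle (T := (1 : ℝ)) one_ne_zero
  rw [AddCircle.toCircle_zero]
  apply Circle.coe_injective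
  rw [← fourier_apply, h]
  rfl

section

variable {G : Subgroup (Equiv.Perm ℚ)} {τ : ℤ → G} {φ : G → ℂ} {S6 : G} {μ : Measure UnitAddCircle}

/-- conditionally finite-dimensional traces have measures with atoms -/
lemma not_fd (D : Data G τ φ S6 μ) (hat : ∀ x, μ {x} = 0) : ¬ FD φ := by
  intro hfd
  have := D.prob
  obtain ⟨M, hM, h⟩ := exists_kernel D.hτ D.hμ D.h2 hfd
  have h1 : ∫ x, (fourier (M : ℤ) x : ℂ) ∂μ = 1 := by
    rw [D.hμ]
    have := h 1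
    rwa [mul_one] at this
  have h2 := ae_one (M : ℤ) h1
  have hfin : {x : UnitAddCircle | M • x = 0}.Finite :=
    AddCircle.finite_torsion (p := (1 : ℝ)) (by omega : 0 < M)
  have : NullSingletonClass μ := ⟨hat⟩
  have h0 : μ {x : UnitAddCircle | M • x = 0} = 0 := hfin.measure_zero μ
  have h3 : ∀ᵐ x ∂μ, x ∈ {x : UnitAddCircle | M • x = 0} := by
    filter_upwards [h2] with x hx
    have := smul_eq_zero_of_one hx
    rwa [natCast_zsmul] at this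
  have h4 : μ {x : UnitAddCircle | M • x = 0} = 1 := (mem_ae_iff_prob_eq_one hfin.measurableSet).1 h3
  rw [h0] at h4
  exact zero_ne_one h4

/-- atomless extreme traces -/
lemma atomless (D : Data G τ φ S6 μ) (hext : φ ∈ (TS G).extremePoints ℝ) (hnf : ¬ FD φ) :
    ∀ x, μ {x} = 0 := (finite_or_atomless D hext).resolve_left hnf

/-- the values of a convex combination -/
lemma conv_measure {μ₁ μ₂ : Measure UnitAddCircle} [IsProbabilityMeasure μ₁]
    [IsProbabilityMeasure μ₂] [IsProbabilityMeasure μ] {a b : ℝ} (ha : 0 < a) (hb : 0 < b)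
    (h : ∀ m : ℤ, ∫ x, (fourier m x : ℂ) ∂μ =
      a * ∫ x, (fourier m x : ℂ) ∂μ₁ + b * ∫ x, (fourier m x : ℂ) ∂μ₂) :
    μ = ENNReal.ofReal a • μ₁ + ENNReal.ofReal b • μ₂ := by
  have f1 : IsFiniteMeasure (ENNReal.ofReal a • μ₁) := Measure.smul_finite _ ENNReal.ofReal_ne_top
  have f2 : IsFiniteMeasure (ENNReal.ofReal b • μ₂) := Measure.smul_finite _ ENNReal.ofReal_ne_top
  refine Pool.Agent.R202.ext_fourier fun m => ?_
  have hi : ∀ (ν : Measure UnitAddCircle) [IsFiniteMeasure ν],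
      Integrable (fun x : UnitAddCircle => (fourier m x : ℂ)) ν := fun ν _ =>
    Integrable.of_bound (fourier m).continuous.aestronglyMeasurable 1
      (Eventually.of_forall fun x => by rw [fourier_apply]; exact (Circle.norm_coe _).le)
  rw [h, integral_add_measure (hi _) (hi _), integral_smul_measure, integral_smul_measure,
    ENNReal.toReal_ofReal ha.le, ENNReal.toReal_ofReal hb.le, Complex.real_smul, Complex.real_smul]

end

section

variable {s2 s3 t : Equiv.Perm ℚ} (hs2 : ∀ x, s2 x = 2 * x) (hs3 : ∀ x, s3 x = 3 * x)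
  (ht : ∀ x, t x = x + 1) {G : Subgroup (Equiv.Perm ℚ)} (hG : G = Subgroup.closure {s2, s3, t})

include hs2 hs3 ht hG

/-- **Ergodic atomless measures give extreme traces.** -/
theorem ext_of_erg {τ : ℤ → G} {φ : G → ℂ} {S6 : G} {μ : Measure UnitAddCircle}
    (D : Data G τ φ S6 μ) (hat : ∀ x, μ {x} = 0)
    (herg : JointErg (fun x : UnitAddCircle => 2 • x) (fun x : UnitAddCircle => 3 • x) μ) :
    φ ∈ (TS G).extremePoints ℝ := by
  have := D.prob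
  refine ⟨⟨D.h1, D.hcl, D.hpd⟩, ?_⟩
  rintro ψ₁ ⟨a1, a2, a3⟩ ψ₂ ⟨b1, b2, b3⟩ ⟨a, b, ha, hb, hab, hφ⟩
  obtain ⟨τ₁, S₁, μ₁, D₁⟩ := data_of hs2 hs3 ht hG a1 a2 a3
  obtain ⟨τ₂, S₂, μ₂, D₂⟩ := data_of hs2 hs3 ht hG b1 b2 b3
  have := D₁.prob
  have := D₂.prob
  have hτ : ∀ (τ' : ℤ → G), (∀ (k : ℤ) (x : ℚ), (τ' k : Equiv.Perm ℚ) x = x + k) → ∀ n, τ' n = τ n := by
    intro τ' h' n
    apply Subtype.ext
    apply Equiv.ext
    intro x
    rw [h', D.hτ]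
  have hm : μ = ENNReal.ofReal a • μ₁ + ENNReal.ofReal b • μ₂ := by
    refine conv_measure ha hb fun m => ?_
    rw [D.hμ, D₁.hμ, D₂.hμ, hτ τ₁ D₁.hτ, hτ τ₂ D₂.hτ, ← hφ]
    simp
  have hac : μ₁ ≪ μ := by
    have h1 : μ₁ ≪ ENNReal.ofReal a • μ₁ :=
      Measure.absolutelyContinuous_smul (by simpa using ha)
    refine h1.trans (Measure.absolutelyContinuous_of_le ?_)
    rw [hm]
    exact Measure.le_add_right le_rfl
  have heq : μ₁ = μ := eq_of_ac herg D.mp2 D.mp3 (comm_smul 2 3) D₁.mp2 D₁.mp3 hac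
  have hat₁ : ∀ x, μ₁ {x} = 0 := by rw [heq]; exact hat
  funext g
  by_cases hg : ∃ r : ℚ, ∀ x : ℚ, (g : Equiv.Perm ℚ) x = x + r
  · obtain ⟨r, hg⟩ := hg
    obtain ⟨n, k, hr⟩ := D.six hg
    rw [hr] at hg
    rw [phi_trans D₁.hτ D₁.hcl S₁ D₁.hS6 g n k hg, phi_trans D.hτ D.hcl S6 D.hS6 g n k hg,
      ← D₁.hμ, ← D.hμ, heq]
  · rw [vanish D₁ hat₁ g hg, vanish D hat g hg]

/-- **The face of the lifts.** Let `Φ` be an extreme trace which is not conditionally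
finite-dimensional and `ψ₀` a trace with `ψ₀ (u ^ (L m)) = Φ (u ^ m)` for all `m`. Every continuous
real functional has at some extreme `ψ` of the same kind a value not greater than at `ψ₀`. -/
theorem face {Φ : G → ℂ} (hΦ : Φ ∈ (TS G).extremePoints ℝ) (hnf : ¬ FD Φ) {u : G}
    (hu : ∀ x : ℚ, (u : Equiv.Perm ℚ) x = x + 1) {L : ℕ} {ψ₀ : G → ℂ}
    (h0 : ψ₀ ∈ TS G) (h0L : ∀ m : ℤ, ψ₀ (u ^ ((L : ℤ) * m)) = Φ (u ^ m)) {Λ : (G → ℂ) → ℝ}
    (hc : Continuous Λ) (hadd : ∀ φ ψ, Λ (φ + ψ) = Λ φ + Λ ψ)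
    (hsmul : ∀ (s : ℝ) φ, Λ (s • φ) = s * Λ φ) :
    ∃ ψ ∈ (TS G).extremePoints ℝ, ¬ FD ψ ∧ (∀ m : ℤ, ψ (u ^ ((L : ℤ) * m)) = Φ (u ^ m)) ∧
      Λ ψ ≤ Λ ψ₀ := by
  obtain ⟨c1, c2, c3⟩ := hΦ.1
  obtain ⟨τ, S6, μ, D⟩ := data_of hs2 hs3 ht hG c1 c2 c3
  have := D.prob
  have hat := atomless D hΦ hnf
  set K : Set (G → ℂ) := {ψ | ψ ∈ TS G ∧ ∀ m : ℤ, ψ (u ^ ((L : ℤ) * m)) = Φ (u ^ m)} with hK
  have hKc : IsCompact K := by
    have e : K = TS G ∩ ⋂ m : ℤ, {ψ : G → ℂ | ψ (u ^ ((L : ℤ) * m)) = Φ (u ^ m)} := by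
      ext ψ
      simp [hK]
    rw [e]
    exact isCompact_TS.inter_right (isClosed_iInter fun m =>
      isClosed_eq (continuous_apply _) continuous_const)
  obtain ⟨ψm, hψm, hmin⟩ := hKc.exists_isMinOn ⟨ψ₀, h0, h0L⟩ hc.continuousOn
  have hmin' : ∀ ψ ∈ K, Λ ψm ≤ Λ ψ := fun ψ hψ => hmin hψ
  -- the lifts form a face
  have hface : ∀ x ∈ TS G, ∀ y ∈ TS G, ∀ z ∈ K, z ∈ openSegment ℝ x y → x ∈ K := by
    rintro x ⟨x1, x2, x3⟩ y ⟨y1, y2, y3⟩ z ⟨hz, hzL⟩ ⟨a, b, ha, hb, hab, hxy⟩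
    obtain ⟨τ₁, S₁, μ₁, D₁⟩ := data_of hs2 hs3 ht hG x1 x2 x3
    obtain ⟨τ₂, S₂, μ₂, D₂⟩ := data_of hs2 hs3 ht hG y1 y2 y3
    have := D₁.prob
    have := D₂.prob
    have hLm : Measurable fun x : UnitAddCircle => L • x := by fun_prop
    have : IsProbabilityMeasure (μ₁.map fun x : UnitAddCircle => L • x) :=
      Measure.isProbabilityMeasure_map hLm.aemeasurable
    have : IsProbabilityMeasure (μ₂.map fun x : UnitAddCircle => L • x) :=
      Measure.isProbabilityMeasure_map hLm.aemeasurable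
    obtain ⟨X, X1, X2, X3, X4, X5⟩ := trace_of_measure hs2 hs3 ht hG
      (μ₁.map fun x : UnitAddCircle => L • x) (mp_map D₁.mp2 L) (mp_map D₁.mp3 L)
    obtain ⟨Y, Y1, Y2, Y3, Y4, Y5⟩ := trace_of_measure hs2 hs3 ht hG
      (μ₂.map fun x : UnitAddCircle => L • x) (mp_map D₂.mp2 L) (mp_map D₂.mp3 L)
    have hX : ∀ n : ℤ, ∫ w, (fourier n w : ℂ) ∂(μ₁.map fun x : UnitAddCircle => L • x) =
        x (u ^ ((L : ℤ) * n)) := by
      intro n
      rw [Pool.Agent.W763.Tr.integral_map_nsmul, D₁.hμ, pow_tau D₁.hτ hu, mul_comm]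
    have hY : ∀ n : ℤ, ∫ w, (fourier n w : ℂ) ∂(μ₂.map fun x : UnitAddCircle => L • x) =
        y (u ^ ((L : ℤ) * n)) := by
      intro n
      rw [Pool.Agent.W763.Tr.integral_map_nsmul, D₂.hμ, pow_tau D₂.hτ hu, mul_comm]
    have hseg : Φ ∈ openSegment ℝ X Y := by
      refine ⟨a, b, ha, hb, hab, ?_⟩
      funext g
      simp only [Pi.add_apply, Pi.smul_apply]
      by_cases hg : ∃ r : ℚ, ∀ x : ℚ, (g : Equiv.Perm ℚ) x = x + r
      · obtain ⟨r, hg⟩ := hg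
        obtain ⟨n, k, hr⟩ := D.six hg
        rw [hr] at hg
        rw [X4 g n k hg, Y4 g n k hg, hX, hY, phi_trans D.hτ D.hcl S6 D.hS6 g n k hg,
          ← pow_tau D.hτ hu, ← hzL, ← hxy]
        simp
      · rw [X5 g hg, Y5 g hg, vanish D hat g hg, smul_zero, smul_zero, add_zero]
    have hXΦ : X = Φ := hΦ.2 ⟨X1, X2, X3⟩ ⟨Y1, Y2, Y3⟩ hseg
    refine ⟨⟨x1, x2, x3⟩, fun m => ?_⟩
    rw [← hX, ← hXΦ]
    refine (X4 _ m 0 fun x => ?_).symm
    rw [pow_tau D₁.hτ hu, D₁.hτ]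
    simp
  set F₀ : Set (G → ℂ) := {ψ | ψ ∈ K ∧ Λ ψ = Λ ψm} with hF₀
  have hFc : IsCompact F₀ := by
    have e : F₀ = K ∩ {ψ : G → ℂ | Λ ψ = Λ ψm} := rfl
    rw [e]
    exact hKc.inter_right (isClosed_eq hc continuous_const)
  have hext : IsExtreme ℝ (TS G) F₀ := by
    refine ⟨fun ψ hψ => hψ.1.1, ?_⟩
    intro x hx y hy z hz hseg
    have hxK := hface x hx y hy z hz.1 hseg
    have hyK := hface y hy x hx z hz.1 (by rwa [openSegment_symm])
    refine ⟨hxK, ?_⟩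
    obtain ⟨a, b, ha, hb, hab, hxy⟩ := hseg
    have h1 : Λ z = a * Λ x + b * Λ y := by rw [← hxy, hadd, hsmul, hsmul]
    have h2 := hmin' x hxK
    have h3 := hmin' y hyK
    have h4 : Λ z = Λ ψm := hz.2
    have h5 : a * (Λ x - Λ ψm) + b * (Λ y - Λ ψm) = 0 := by
      have h6 : (a + b) * Λ ψm = Λ ψm := by rw [hab, one_mul]
      linarith
    have h7 : 0 ≤ b * (Λ y - Λ ψm) := mul_nonneg hb.le (by linarith)
    have h8 : 0 ≤ a * (Λ x - Λ ψm) := mul_nonneg ha.le (by linarith)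
    have h9 : a * (Λ x - Λ ψm) = 0 := by linarith
    rcases mul_eq_zero.1 h9 with h | h
    · exact absurd h ha.ne'
    · linarith
  obtain ⟨ψ, hψ⟩ := hFc.extremePoints_nonempty ⟨ψm, hψm, rfl⟩
  have hψ1 := hext.extremePoints_subset_extremePoints hψ
  have hψF : ψ ∈ F₀ := hψ.1
  refine ⟨ψ, hψ1, fun hfd => ?_, hψF.1.2, ?_⟩
  · obtain ⟨d1, d2, d3⟩ := hψ1.1
    obtain ⟨τ', S', μ', D'⟩ := data_of hs2 hs3 ht hG d1 d2 d3
    have := D'.prob
    obtain ⟨M, hM, h⟩ := exists_kernel D'.hτ D'.hμ D'.h2 hfd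
    apply hnf
    refine finite_dim D.hτ D.h1 D.hcl D.hpd S6 D.hS6 D.hform D.h2 D.h3 ⟨M, hM, fun n => ?_⟩
    rw [← pow_tau D.hτ hu, ← hψF.1.2, pow_tau D'.hτ hu,
      show (L : ℤ) * (M * n) = M * (L * n) by ring, h]
  · rw [hψF.2]
    exact hmin' ψ₀ ⟨h0, h0L⟩

end

end Run7.h303.TR
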