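import Pool.Agent.Run7.h303.TR.One

/-!
The convex hull of the vectors of values of the extreme traces related to a given one.
-/

set_option autoImplicit false

open MeasureTheory Filter Topology Finset
open scoped ENNReal ComplexOrder

namespace Run7.h303.TR

open Pool.Agent.W763.Tr
open Pool.Agent.TH654.FC
open Pool.Agent.Y253.TR

/-- real functionals on `F → ℂ` -/
lemma exists_weights {F : Finset ℕ} (f : (F → ℂ) →L[ℝ] ℝ) : ∃ w : ℕ → ℂ,
    ∀ v : ℕ → ℂ, f (fun m : F => v m) = (∑ m ∈ F, w m * v m).re := by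
  classical
  set g : F → ℂ → ℝ := fun m z => f (Pi.single m z) with hg
  have hgz : ∀ (m : F) (z : ℂ), g m z = z.re * g m 1 + z.im * g m Complex.I := by
    intro m z
    have e : (Pi.single m z : F → ℂ) =
        z.re • (Pi.single m (1 : ℂ) : F → ℂ) + z.im • (Pi.single m Complex.I : F → ℂ) := by
      rw [← Pi.single_smul, ← Pi.single_smul, ← Pi.single_add]
      congr 1
      rw [Complex.real_smul, Complex.real_smul, mul_one]
      exact (Complex.re_add_im z).symm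
    simp only [hg]
    rw [e, map_add, map_smul, map_smul, smul_eq_mul, smul_eq_mul]
  refine ⟨fun m => if h : m ∈ F then (g ⟨m, h⟩ 1 : ℂ) - (g ⟨m, h⟩ Complex.I : ℂ) * Complex.I else 0,
    fun v => ?_⟩
  have h1 : (fun m : F => v m) = ∑ m : F, (Pi.single m (v m) : F → ℂ) := by
    rw [Finset.univ_sum_single]
  rw [h1, map_sum, Complex.re_sum, ← Finset.sum_coe_sort F]
  refine sum_congr rfl fun m _ => ?_
  beta_reduce
  rw [dif_pos m.2]
  change g m (v m) = _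
  rw [hgz]
  simp [Complex.mul_re, Complex.sub_re, Complex.sub_im]
  ring

section

variable {s2 s3 t : Equiv.Perm ℚ} (hs2 : ∀ x, s2 x = 2 * x) (hs3 : ∀ x, s3 x = 3 * x)
  (ht : ∀ x, t x = x + 1) {G : Subgroup (Equiv.Perm ℚ)} (hG : G = Subgroup.closure {s2, s3, t})

include hs2 hs3 ht hG

/-- **The convex hull of the values.** -/
theorem hull {u : G} (hu : ∀ x : ℚ, (u : Equiv.Perm ℚ) x = x + 1) {F : Finset ℕ}
    (hF : ∀ m ∈ F, 0 < m ∧ ¬ 2 ∣ m ∧ ¬ 3 ∣ m) {φ : G → ℂ}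
    (hφ : φ ∈ (TS G).extremePoints ℝ) (hnf : ¬ FD φ) {n : ℤ} (hn : n ≠ 0) (z : ℕ → ℂ)
    (hz : ∑ m ∈ F, ‖z m‖ ≤ cF F * ‖φ (u ^ n)‖) :
    (fun m : F => z m) ∈ closure (convexHull ℝ {v : F → ℂ | ∃ ψ ∈ (TS G).extremePoints ℝ,
      ¬ FD ψ ∧ (∃ L k : ℕ, 1 ≤ L ∧ 1 ≤ k ∧ ∀ m : ℤ, ψ (u ^ ((L : ℤ) * m)) = φ (u ^ ((k : ℤ) * m))) ∧
      v = fun m : F => ψ (u ^ (m : ℕ))}) := by
  by_contra hcon
  obtain ⟨f, α, h1, h2⟩ := geometric_hahn_banach_closed_point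
    (convex_convexHull ℝ {v : F → ℂ | ∃ ψ ∈ (TS G).extremePoints ℝ,
      ¬ FD ψ ∧ (∃ L k : ℕ, 1 ≤ L ∧ 1 ≤ k ∧ ∀ m : ℤ, ψ (u ^ ((L : ℤ) * m)) = φ (u ^ ((k : ℤ) * m))) ∧
      v = fun m : F => ψ (u ^ (m : ℕ))}).closure isClosed_closure hcon
  obtain ⟨w, hw⟩ := exists_weights f
  rcases F.eq_empty_or_nonempty with h0 | hFn
  · subst h0
    have h3 := h1 (fun m : (∅ : Finset ℕ) => φ (u ^ (m : ℕ))) (subset_closure
      (subset_convexHull ℝ _ ⟨φ, hφ, hnf, ⟨1, 1, le_rfl, le_rfl, fun m => rfl⟩, rfl⟩))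
    rw [hw z] at h2
    rw [hw (fun m => φ (u ^ m))] at h3
    simp only [Finset.sum_empty] at h2 h3
    linarith
  obtain ⟨m1, hm1, hmax⟩ := F.exists_max_image (fun m => ‖w m‖) hFn
  obtain ⟨ψ, hψ, hψnf, hrel, h3⟩ := uniform hs2 hs3 ht hG hu hF hFn hφ hnf (fun m => -w m)
  have h4 := h1 (fun m : F => ψ (u ^ (m : ℕ))) (subset_closure
      (subset_convexHull ℝ _ ⟨ψ, hψ, hψnf, hrel, rfl⟩))
  rw [hw (fun m => ψ (u ^ m))] at h4
  rw [hw z] at h2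
  have h5 := h3 m1 hm1 n hn
  have h6 : (∑ m ∈ F, -w m * ψ (u ^ m)).re = -(∑ m ∈ F, w m * ψ (u ^ m)).re := by
    rw [← Complex.neg_re, ← Finset.sum_neg_distrib]
    congr 1
    exact sum_congr rfl fun m _ => by ring
  rw [h6, norm_neg] at h5
  have h7 : (∑ m ∈ F, w m * z m).re ≤ ‖w m1‖ * ∑ m ∈ F, ‖z m‖ := by
    refine (Complex.re_le_norm _).trans ((norm_sum_le _ _).trans ?_)
    rw [mul_sum]
    refine sum_le_sum fun m hm => ?_
    rw [norm_mul]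
    exact mul_le_mul_of_nonneg_right (hmax m hm) (norm_nonneg _)
  have h8 : ‖w m1‖ * ∑ m ∈ F, ‖z m‖ ≤ cF F * (‖w m1‖ * ‖φ (u ^ n)‖) := by
    have := mul_le_mul_of_nonneg_left hz (norm_nonneg (w m1))
    linarith
  linarith

end

end Run7.h303.TR
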