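import Pool.Agent.Run7.h303.TR.Lift
import Pool.Agent.R203.ID.Fou

/-!
Extreme traces with small values of a linear functional.
-/

set_option autoImplicit false

open MeasureTheory Filter Topology Finset
open scoped ENNReal ComplexOrder

namespace Run7.h303.TR

open Pool.Agent.W763.Tr
open Pool.Agent.TH654.FC
open Pool.Agent.Y253.TR
open Pool.Agent.R202.TM (JointErg)
open Pool.Agent.R481.TraceBT (vanish)
open Pool.Agent.R481.TraceErg (erg_of_extreme)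
open Pool.Agent.N276.TT (pow_tau)
open Pool.Agent.R203.ID (hat norm_f f_zero norm_hat_le ext_hat hat_map_nsmul inv_iff conv hat_conv)

/-- the point mass at zero -/
lemma V_one : V 1 1 := by
  have hm : ∀ k : ℕ, MeasurePreserving (fun x : UnitAddCircle => k • x)
      (Measure.dirac (0 : UnitAddCircle)) (Measure.dirac (0 : UnitAddCircle)) := by
    intro k
    have hk : Measurable fun x : UnitAddCircle => k • x := by fun_prop
    refine ⟨hk, ?_⟩
    rw [Measure.map_dirac' hk, smul_zero]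
  refine ⟨Measure.dirac 0, inferInstance, hm 2, hm 3, ⟨1, le_rfl, fun m => ?_⟩, ?_⟩
  · rw [integral_dirac]
    simp
  · rw [integral_dirac]
    simp

/-- first coefficients of finite invariant measures in all directions -/
lemma exists_dir (ζ : ℂ) : ∃ s : ℂ, V 1 s ∧ (s * ζ).re ≤ -(1 / 40 * ‖ζ‖) := by
  obtain ⟨c, hc, hre, him⟩ := V_tw
  have h23 : (4.79 : ℝ) ≤ Real.sqrt 23 := by
    rw [show (4.79 : ℝ) = Real.sqrt (4.79 ^ 2) by rw [Real.sqrt_sq (by norm_num)]]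
    exact Real.sqrt_le_sqrt (by norm_num)
  have hz : ‖ζ‖ ≤ |ζ.re| + |ζ.im| := Complex.norm_le_abs_re_add_abs_im ζ
  have hre0 : |ζ.re| ≤ ‖ζ‖ := Complex.abs_re_le_norm ζ
  by_cases h1 : ζ.re ≤ -(1 / 40 * ‖ζ‖)
  · exact ⟨1, V_one, by rw [one_mul]; exact h1⟩
  by_cases h2 : 1 / 10 * ‖ζ‖ ≤ ζ.re
  · refine ⟨-1 / 4, V_five, ?_⟩
    have : ((-1 / 4 : ℂ) * ζ).re = -1 / 4 * ζ.re := by
      have e : (-1 / 4 : ℂ) = ((-1 / 4 : ℝ) : ℂ) := by push_cast; ring
      rw [e, Complex.re_ofReal_mul]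
    rw [this]
    linarith
  · push Not at h1 h2
    have h3 : |ζ.re| ≤ 1 / 10 * ‖ζ‖ := by
      have := norm_nonneg ζ
      rw [abs_le]; constructor <;> linarith
    have h4 : 9 / 10 * ‖ζ‖ ≤ |ζ.im| := by linarith
    have hn := norm_nonneg ζ
    -- choose the sign of the imaginary part
    have key : ∀ d : ℂ, d.re = -1 / 22 → d.im * ζ.im = Real.sqrt 23 / 22 * |ζ.im| →
        (d * ζ).re ≤ -(1 / 40 * ‖ζ‖) := by
      intro d hd1 hd2
      rw [Complex.mul_re, hd1, hd2]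
      have h5 := (abs_le.1 h3).1
      nlinarith [abs_nonneg ζ.im]
    have hci : c.im = Real.sqrt 23 / 22 ∨ c.im = -(Real.sqrt 23 / 22) := by
      rcases abs_cases c.im with ⟨h5, _⟩ | ⟨h5, _⟩
      · left; rw [← him, h5]
      · right; rw [← him, h5]; ring
    rcases hci with h5 | h5
    · rcases abs_cases ζ.im with ⟨h6, _⟩ | ⟨h6, _⟩
      · exact ⟨c, hc, key c hre (by rw [h5, h6])⟩
      · refine ⟨starRingEnd ℂ c, V_conj hc, key _ (by rw [Complex.conj_re, hre]) ?_⟩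
        rw [Complex.conj_im, h5, h6]; ring
    · rcases abs_cases ζ.im with ⟨h6, _⟩ | ⟨h6, _⟩
      · refine ⟨starRingEnd ℂ c, V_conj hc, key _ (by rw [Complex.conj_re, hre]) ?_⟩
        rw [Complex.conj_im, h5, h6]; ring
      · exact ⟨c, hc, key c hre (by rw [h5, h6]; ring)⟩

/-- the ratio between consecutive indices -/
noncomputable def eF (F : Finset ℕ) : ℝ := 1 / (160 * (F.card + 1))

/-- the constant of the inequality -/
noncomputable def cF (F : Finset ℕ) : ℝ := 1 / 160 * eF F ^ F.sup id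

lemma eF_pos (F : Finset ℕ) : 0 < eF F := by unfold eF; positivity

lemma eF_le (F : Finset ℕ) : eF F ≤ 1 := by
  unfold eF
  rw [div_le_one (by positivity)]
  have : (0 : ℝ) ≤ F.card := Nat.cast_nonneg _
  linarith

lemma cF_pos (F : Finset ℕ) : 0 < cF F := by
  unfold cF
  have := eF_pos F
  positivity

/-- the choice of the index -/
lemma exists_index {F : Finset ℕ} (hF : F.Nonempty) (w : ℕ → ℂ) : ∃ b ∈ F,
    (∀ m ∈ F, b < m → ‖w m‖ ≤ eF F * ‖w b‖) ∧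
    ∀ m ∈ F, eF F ^ F.sup id * ‖w m‖ ≤ ‖w b‖ := by
  have he := eF_pos F
  have he1 := eF_le F
  obtain ⟨b, hb, hmax⟩ := F.exists_max_image (fun m => ‖w m‖ * (eF F)⁻¹ ^ m) hF
  have h1 : ∀ m ∈ F, ‖w m‖ * eF F ^ b ≤ ‖w b‖ * eF F ^ m := by
    intro m hm
    have h2 := hmax m hm
    simp only [inv_pow] at h2
    rw [← div_eq_mul_inv, ← div_eq_mul_inv, div_le_div_iff₀ (by positivity) (by positivity)] at h2
    exact h2
  refine ⟨b, hb, fun m hm hbm => ?_, fun m hm => ?_⟩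
  · have h2 := h1 m hm
    have h3 : eF F ^ m ≤ eF F * eF F ^ b := by
      rw [← pow_succ']
      exact pow_le_pow_of_le_one he.le he1 hbm
    have h4 : ‖w m‖ * eF F ^ b ≤ (eF F * ‖w b‖) * eF F ^ b := by
      calc ‖w m‖ * eF F ^ b ≤ ‖w b‖ * eF F ^ m := h2
        _ ≤ ‖w b‖ * (eF F * eF F ^ b) := mul_le_mul_of_nonneg_left h3 (norm_nonneg _)
        _ = _ := by ring
    exact le_of_mul_le_mul_right h4 (by positivity)
  · have h2 := h1 m hm
    have h3 : eF F ^ F.sup id ≤ eF F ^ b :=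
      pow_le_pow_of_le_one he.le he1 (Finset.le_sup (f := id) hb)
    calc eF F ^ F.sup id * ‖w m‖ ≤ eF F ^ b * ‖w m‖ :=
          mul_le_mul_of_nonneg_right h3 (norm_nonneg _)
      _ = ‖w m‖ * eF F ^ b := by ring
      _ ≤ ‖w b‖ * eF F ^ m := h2
      _ ≤ ‖w b‖ * 1 := mul_le_mul_of_nonneg_left (pow_le_one₀ he.le he1) (norm_nonneg _)
      _ = ‖w b‖ := mul_one _

section

variable {s2 s3 t : Equiv.Perm ℚ} (hs2 : ∀ x, s2 x = 2 * x) (hs3 : ∀ x, s3 x = 3 * x)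
  (ht : ∀ x, t x = x + 1) {G : Subgroup (Equiv.Perm ℚ)} (hG : G = Subgroup.closure {s2, s3, t})

include hs2 hs3 ht hG

/-- the images of an extreme trace with atomless measure -/
theorem exists_image {φ : G → ℂ} (hφ : φ ∈ (TS G).extremePoints ℝ) (hnf : ¬ FD φ) {u : G}
    (hu : ∀ x : ℚ, (u : Equiv.Perm ℚ) x = x + 1) {k : ℕ} (hk : 1 ≤ k) :
    ∃ Φ ∈ (TS G).extremePoints ℝ, ¬ FD Φ ∧ ∀ m : ℤ, Φ (u ^ m) = φ (u ^ ((k : ℤ) * m)) := by
  obtain ⟨c1, c2, c3⟩ := hφ.1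
  obtain ⟨τ, S6, μ, D⟩ := data_of hs2 hs3 ht hG c1 c2 c3
  have := D.prob
  have hat := atomless D hφ hnf
  have herg := erg_of_extreme D hat hφ
  have hkm : Measurable fun x : UnitAddCircle => k • x := by fun_prop
  have hP : IsProbabilityMeasure (μ.map fun x : UnitAddCircle => k • x) :=
    Measure.isProbabilityMeasure_map hkm.aemeasurable
  obtain ⟨Φ, a1, a2, a3, a4, a5⟩ := trace_of_measure hs2 hs3 ht hG
    (μ.map fun x : UnitAddCircle => k • x) (mp_map D.mp2 k) (mp_map D.mp3 k)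
  obtain ⟨τ', S', μ', D'⟩ := data_of hs2 hs3 ht hG a1 a2 a3
  have := D'.prob
  have hτ' : ∀ n : ℤ, Φ (τ' n) = ∫ x, (fourier n x : ℂ) ∂(μ.map fun x : UnitAddCircle => k • x) := by
    intro n
    refine a4 _ n 0 fun x => ?_
    rw [D'.hτ]
    simp
  have heq : μ' = μ.map fun x : UnitAddCircle => k • x := by
    refine Pool.Agent.R202.ext_fourier fun n => ?_
    rw [D'.hμ, hτ']
  have hat' : ∀ x, μ' {x} = 0 := by
    rw [heq]
    exact atomless_map hat hk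
  refine ⟨Φ, ext_of_erg hs2 hs3 ht hG D' hat' (by rw [heq]; exact erg_map herg k), not_fd D' hat',
    fun m => ?_⟩
  rw [pow_tau D'.hτ hu, hτ', Pool.Agent.W763.Tr.integral_map_nsmul, D.hμ, pow_tau D.hτ hu,
    mul_comm]

/-- **The main inequality.** -/
theorem key {φ : G → ℂ} (hφ : φ ∈ (TS G).extremePoints ℝ) (hnf : ¬ FD φ) {u : G}
    (hu : ∀ x : ℚ, (u : Equiv.Perm ℚ) x = x + 1) {F : Finset ℕ}
    (hF : ∀ m ∈ F, 0 < m ∧ ¬ 2 ∣ m ∧ ¬ 3 ∣ m) (hFn : F.Nonempty) (w : ℕ → ℂ) {V₀ : ℝ}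
    (hV : ∀ k : ℤ, k ≠ 0 → ‖φ (u ^ k)‖ ≤ V₀) {n0 : ℕ} (hn0 : 1 ≤ n0)
    (hz : V₀ ≤ 2 * ‖φ (u ^ (n0 : ℤ))‖) :
    ∃ ψ ∈ (TS G).extremePoints ℝ, ¬ FD ψ ∧
      (∃ L k : ℕ, 1 ≤ L ∧ 1 ≤ k ∧ ∀ m : ℤ, ψ (u ^ ((L : ℤ) * m)) = φ (u ^ ((k : ℤ) * m))) ∧
      ∀ m0 ∈ F, (∑ m ∈ F, w m * ψ (u ^ m)).re ≤ -(cF F * (‖w m0‖ * V₀)) := by
  obtain ⟨c1, c2, c3⟩ := hφ.1
  obtain ⟨τ, S6, μ, D⟩ := data_of hs2 hs3 ht hG c1 c2 c3
  have := D.prob
  have hμu : ∀ m : ℤ, hat μ m = φ (u ^ m) := fun m => by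
    rw [pow_tau D.hτ hu]
    exact D.hμ m
  have hV0 : 0 ≤ V₀ := (norm_nonneg _).trans (hV 1 one_ne_zero)
  have he := eF_pos F
  obtain ⟨b, hb, hb1, hb2⟩ := exists_index hFn w
  obtain ⟨hbpos, hb2n, hb3n⟩ := hF b hb
  obtain ⟨s, hs, hsre⟩ := exists_dir (w b * φ (u ^ (n0 : ℤ)))
  obtain ⟨α, hα, α2, α3, ⟨M, hM1, hM⟩, hαb⟩ := V_nat (n := b) hbpos.ne' hs
  have hn0m : Measurable fun x : UnitAddCircle => n0 • x := by fun_prop
  have hP0 : IsProbabilityMeasure (μ.map fun x : UnitAddCircle => n0 • x) :=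
    Measure.isProbabilityMeasure_map hn0m.aemeasurable
  obtain ⟨ρ, hρ, ρ2, ρ3, hρ1, hρ0⟩ := exists_lift hb2n hb3n hbpos.ne' (mp_map D.mp2 n0)
    (mp_map D.mp3 n0)
  have hρ1' : ∀ m : ℤ, hat ρ (b * m) = φ (u ^ ((n0 : ℤ) * m)) := by
    intro m
    have h1 := hρ1 m
    have h2 := hat_map_nsmul μ n0 m
    rw [hμu, mul_comm m] at h2
    rw [← h2]
    exact h1
  have hρV : ∀ m : ℤ, m ≠ 0 → ‖hat ρ m‖ ≤ V₀ := by
    intro m hm
    by_cases hd : (b : ℤ) ∣ m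
    · obtain ⟨m', rfl⟩ := hd
      rw [hρ1']
      have hm' : m' ≠ 0 := right_ne_zero_of_mul hm
      exact hV _ (mul_ne_zero (by exact_mod_cast (by omega : n0 ≠ 0)) hm')
    · have h1 : hat ρ m = 0 := hρ0 m hd
      rw [h1, norm_zero]
      exact hV0
  -- the convolution
  have hν2 : MeasurePreserving (fun x : UnitAddCircle => 2 • x) (conv α ρ) (conv α ρ) := by
    rw [inv_iff]
    intro m
    rw [hat_conv, hat_conv, (inv_iff 2).1 α2, (inv_iff 2).1 ρ2]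
  have hν3 : MeasurePreserving (fun x : UnitAddCircle => 3 • x) (conv α ρ) (conv α ρ) := by
    rw [inv_iff]
    intro m
    rw [hat_conv, hat_conv, (inv_iff 3).1 α3, (inv_iff 3).1 ρ3]
  obtain ⟨ψ₀, e1, e2, e3, e4, e5⟩ := trace_of_measure hs2 hs3 ht hG (conv α ρ) hν2 hν3
  have hψ₀ : ∀ m : ℤ, ψ₀ (u ^ m) = hat α m * hat ρ m := by
    intro m
    rw [← hat_conv]
    refine e4 _ m 0 fun x => ?_
    rw [pow_tau D.hτ hu, D.hτ]
    simp
  obtain ⟨Φ, hΦ, hΦnf, hΦu⟩ := exists_image hs2 hs3 ht hG hφ hnf hu (k := n0 * M)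
    (Nat.mul_pos hn0 hM1)
  have h0L : ∀ m : ℤ, ψ₀ (u ^ (((b * M : ℕ) : ℤ) * m)) = Φ (u ^ m) := by
    intro m
    have h1 : hat α ((M : ℤ) * (b * m)) = 1 := hM (b * m)
    rw [hψ₀, hΦu, show ((b * M : ℕ) : ℤ) * m = (M : ℤ) * (b * m) by push_cast; ring, h1, one_mul,
      show (M : ℤ) * (b * m) = b * (M * m) by ring, hρ1']
    congr 2
    push_cast
    ring
  obtain ⟨ψ, hψ, hψnf, hψL, hψΛ⟩ := face hs2 hs3 ht hG hΦ hΦnf hu ⟨e1, e2, e3⟩ h0L
    (Λ := fun ψ => (∑ m ∈ F, w m * ψ (u ^ m)).re)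
    (Complex.continuous_re.comp (continuous_finsetSum _ fun m _ =>
      continuous_const.mul (continuous_apply _)))
    (fun φ ψ => by
      simp only [Pi.add_apply, mul_add, sum_add_distrib, Complex.add_re])
    (fun r φ => by
      have : ∑ m ∈ F, w m * (r • φ) (u ^ m) = (r : ℂ) * ∑ m ∈ F, w m * φ (u ^ m) := by
        rw [mul_sum]
        refine sum_congr rfl fun m _ => ?_
        simp only [Pi.smul_apply, Complex.real_smul]
        ring
      simp only [this, Complex.re_ofReal_mul])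
  refine ⟨ψ, hψ, hψnf, ⟨b * M, n0 * M, Nat.mul_pos hbpos hM1, Nat.mul_pos hn0 hM1, fun m => ?_⟩,
    fun m0 hm0 => hψΛ.trans ?_⟩
  · rw [hψL, hΦu]
  -- the estimate
  have hval : ∀ m : ℕ, ψ₀ (u ^ m) = hat α m * hat ρ m := fun m => by
    rw [← hψ₀, zpow_natCast]
  simp only [hval]
  rw [← Finset.add_sum_erase F _ hb, Complex.add_re]
  have hmain : (w b * (hat α b * hat ρ b)).re ≤ -(1 / 40 * (‖w b‖ * ‖φ (u ^ (n0 : ℤ))‖)) := by
    have h1 : hat ρ b = φ (u ^ (n0 : ℤ)) := by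
      have := hρ1' 1
      rwa [mul_one, mul_one] at this
    have h2 : hat α b = s := hαb
    rw [h1, h2, show w b * (s * φ (u ^ (n0 : ℤ))) = s * (w b * φ (u ^ (n0 : ℤ))) by ring,
      ← norm_mul]
    exact hsre
  have hrest : (∑ m ∈ F.erase b, w m * (hat α m * hat ρ m)).re ≤
      F.card * (eF F * ‖w b‖ * V₀) := by
    refine (Complex.re_le_norm _).trans ((norm_sum_le _ _).trans ?_)
    have h1 : ∀ m ∈ F.erase b, ‖w m * (hat α m * hat ρ m)‖ ≤ eF F * ‖w b‖ * V₀ := by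
      intro m hm
      obtain ⟨hmb, hmF⟩ := Finset.mem_erase.1 hm
      obtain ⟨hmpos, -, -⟩ := hF m hmF
      rcases lt_or_gt_of_ne hmb with hlt | hgt
      · have h2 : hat ρ m = 0 := by
          refine hρ0 m fun hd => ?_
          have := Nat.le_of_dvd hmpos (by exact_mod_cast hd)
          omega
        rw [h2, mul_zero, mul_zero, norm_zero]
        positivity
      · rw [norm_mul, norm_mul]
        have h2 := hb1 m hmF hgt
        have h3 := norm_hat_le α m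
        have h4 := hρV m (by exact_mod_cast hmpos.ne')
        calc ‖w m‖ * (‖hat α m‖ * ‖hat ρ m‖) ≤ (eF F * ‖w b‖) * (1 * V₀) := by gcongr
          _ = _ := by ring
    refine (sum_le_sum h1).trans ?_
    rw [sum_const, nsmul_eq_mul]
    refine mul_le_mul_of_nonneg_right ?_ (by positivity)
    exact_mod_cast Finset.card_le_card (Finset.erase_subset _ _)
  have hcard : (F.card : ℝ) * eF F ≤ 1 / 160 := by
    unfold eF
    rw [mul_one_div, div_le_div_iff₀ (by positivity) (by norm_num)]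
    have : (0 : ℝ) ≤ F.card := Nat.cast_nonneg _
    linarith
  have hb2' := hb2 m0 hm0
  have h5 : 1 / 160 * (‖w b‖ * V₀) ≥ cF F * (‖w m0‖ * V₀) := by
    unfold cF
    have := mul_le_mul_of_nonneg_right hb2' hV0
    nlinarith
  have h6 : F.card * (eF F * ‖w b‖ * V₀) ≤ 1 / 160 * (‖w b‖ * V₀) := by
    have h7 : 0 ≤ ‖w b‖ * V₀ := mul_nonneg (norm_nonneg _) hV0
    calc F.card * (eF F * ‖w b‖ * V₀) = (F.card * eF F) * (‖w b‖ * V₀) := by ring
      _ ≤ 1 / 160 * (‖w b‖ * V₀) := mul_le_mul_of_nonneg_right hcard h7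
  have h8 : ‖w b‖ * V₀ ≤ 2 * (‖w b‖ * ‖φ (u ^ (n0 : ℤ))‖) := by
    have := mul_le_mul_of_nonneg_left hz (norm_nonneg (w b))
    linarith
  linarith

end

end Run7.h303.TR
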