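import Pool.Agent.Run7.h303.TR.Face
import Pool.Agent.Y253.TR.Val

/-!
Lifts of invariant measures through `x ↦ n x`, `n` prime to 6.
-/

set_option autoImplicit false

open MeasureTheory Filter Topology Finset
open scoped ENNReal ComplexOrder

namespace Run7.h303.TR

open Pool.Agent.W763.Tr
open Pool.Agent.TH654.FC
open Pool.Agent.Y253.TR

/-- the lift of an invariant measure; the proof is that of `Pool.Agent.Y253.TR.V_lift` -/
lemma exists_lift {n : ℕ} (h2n : ¬ 2 ∣ n) (h3n : ¬ 3 ∣ n) (hn0 : n ≠ 0)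
    {μ : Measure UnitAddCircle} [IsProbabilityMeasure μ]
    (h2 : MeasurePreserving (fun x : UnitAddCircle => 2 • x) μ μ)
    (h3 : MeasurePreserving (fun x : UnitAddCircle => 3 • x) μ μ) :
    ∃ ν : Measure UnitAddCircle, IsProbabilityMeasure ν ∧
      MeasurePreserving (fun x : UnitAddCircle => 2 • x) ν ν ∧
      MeasurePreserving (fun x : UnitAddCircle => 3 • x) ν ν ∧
      (∀ m : ℤ, ∫ x, (fourier (n * m) x : ℂ) ∂ν = ∫ x, (fourier m x : ℂ) ∂μ) ∧
      ∀ m : ℤ, ¬ (n : ℤ) ∣ m → ∫ x, (fourier m x : ℂ) ∂ν = 0 := by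
  classical
  have hn' : (n : ℤ) ≠ 0 := by exact_mod_cast hn0
  set f : ℤ → ℂ := fun m => if (n : ℤ) ∣ m then ∫ x, (fourier (m / n) x : ℂ) ∂μ else 0 with hf
  have hfm : ∀ m : ℤ, f (n * m) = ∫ x, (fourier m x : ℂ) ∂μ := by
    intro m
    simp only [hf]
    rw [if_pos (dvd_mul_right _ _), Int.mul_ediv_cancel_left _ hn']
  have hf0 : f 0 = 1 := by
    have := hfm 0
    rw [mul_zero] at this
    rw [this]; simp
  -- positive definiteness
  have hpd : ∀ (N : ℕ) (a : ℕ → ℂ), 0 ≤ ∑ j ∈ range N, ∑ k ∈ range N,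
      star (a k) * a j * f ((j : ℤ) - k) := by
    intro N a
    have hgroup : ∑ j ∈ range N, ∑ k ∈ range N, star (a k) * a j * f ((j : ℤ) - k) =
        ∑ l ∈ (range N).image (· % n), ∑ j ∈ range N with j % n = l, ∑ k ∈ range N with k % n = l,
          star (a k) * a j * f ((j : ℤ) - k) := by
      rw [← Finset.sum_fiberwise_of_maps_to (s := range N) (t := (range N).image (· % n))
        (g := (· % n)) (fun i hi => mem_image_of_mem (· % n) hi)]
      refine sum_congr rfl fun l _ => sum_congr rfl fun j hj => ?_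
      rw [sum_filter]
      refine sum_congr rfl fun k _ => ?_
      split_ifs with hk
      · rfl
      · have : f ((j : ℤ) - k) = 0 := by
          simp only [hf]
          rw [if_neg]
          intro hd
          apply hk
          have e1 : (j : ℤ) % n = (k : ℤ) % n := (Int.modEq_iff_dvd.2 hd).symm
          have e2 : j % n = k % n := by exact_mod_cast e1
          rw [← e2]; exact (mem_filter.1 hj).2
        rw [this, mul_zero]
    rw [hgroup]
    refine sum_nonneg fun l _ => ?_
    refine le_of_le_of_eq (pd_fourier μ ((range N).filter fun j => j % n = l) a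
      (fun j => ((j / n : ℕ) : ℤ))) ?_
    refine sum_congr rfl fun j hj => sum_congr rfl fun k hk => ?_
    congr 1
    have e : (j : ℤ) - k = n * (((j / n : ℕ) : ℤ) - ((k / n : ℕ) : ℤ)) := by
      have h5 := Nat.div_add_mod j n
      have h6 := Nat.div_add_mod k n
      rw [(mem_filter.1 hj).2] at h5
      rw [(mem_filter.1 hk).2] at h6
      have h5' : (n : ℤ) * ((j / n : ℕ) : ℤ) + l = j := by exact_mod_cast h5
      have h6' : (n : ℤ) * ((k / n : ℕ) : ℤ) + l = k := by exact_mod_cast h6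
      linarith
    rw [e, hfm]
  obtain ⟨ν, hν, hνf⟩ := herglotz (c := f) hf0 hpd
  have hmul : ∀ p : ℕ, p.Prime → ¬ p ∣ n → MeasurePreserving (fun x : UnitAddCircle => p • x) μ μ →
      ∀ m : ℤ, f (m * p) = f m := by
    intro p hp hpn hpm m
    by_cases hd : (n : ℤ) ∣ m
    · obtain ⟨q, rfl⟩ := hd
      rw [mul_assoc, hfm, hfm, fc_mul hpm]
    · simp only [hf]
      rw [if_neg hd, if_neg]
      intro hd'
      apply hd
      have hcop : IsCoprime (n : ℤ) (p : ℤ) := by
        rw [Nat.isCoprime_iff_coprime]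
        exact ((Nat.Prime.coprime_iff_not_dvd hp).2 hpn).symm
      exact hcop.dvd_of_dvd_mul_right hd'
  refine ⟨ν, hν, mp_nsmul hνf (fun m => ?_), mp_nsmul hνf (fun m => ?_), fun m => ?_, fun m hm => ?_⟩
  · exact hmul 2 Nat.prime_two h2n h2 m
  · exact hmul 3 Nat.prime_three h3n h3 m
  · rw [hνf, hfm]
  · rw [hνf]
    simp only [hf]
    rw [if_neg hm]

end Run7.h303.TR
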